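import Pool.Agent.H9.DP.Data

namespace DPD
open DPC

set_option maxRecDepth 100000

theorem gA0 : ckG 0 tA0 tA1 = true := by decide +kernel
theorem gA1 : ckG 1 tA1 tA2 = true := by decide +kernel
theorem gA2 : ckG 1 tA2 tA3 = true := by decide +kernel
theorem gA3 : ckG 2 tA3 tA4 = true := by decide +kernel
theorem gA4 : ckG 3 tA4 tA5 = true := by decide +kernel
theorem gA5 : ckG 5 tA5 tA6 = true := by decide +kernel
theorem gA6 : ckG 7 tA6 tA7 = true := by decide +kernel
theorem gA7 : ckG 11 tA7 tA8 = true := by decide +kernel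
theorem gA8 : ckG 15 tA8 tA9 = true := by decide +kernel
theorem gA9 : ckG 23 tA9 tA10 = true := by decide +kernel
theorem gA10 : ckG 32 tA10 tA11 = true := by decide +kernel
theorem gA11 : ckG 46 tA11 tA12 = true := by decide +kernel
theorem gA12 : ckG 64 tA12 tA13 = true := by decide +kernel

theorem gB0 : ckG 0 tB0 tB1 = true := by decide +kernel
theorem gB1 : ckG 1 tB1 tB2 = true := by decide +kernel
theorem gB2 : ckG 1 tB2 tB3 = true := by decide +kernel
theorem gB3 : ckG 2 tB3 tB4 = true := by decide +kernel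
theorem gB4 : ckG 3 tB4 tB5 = true := by decide +kernel
theorem gB5 : ckG 5 tB5 tB6 = true := by decide +kernel
theorem gB6 : ckG 7 tB6 tB7 = true := by decide +kernel
theorem gB7 : ckG 11 tB7 tB8 = true := by decide +kernel
theorem gB8 : ckG 15 tB8 tB9 = true := by decide +kernel
theorem gB9 : ckG 23 tB9 tB10 = true := by decide +kernel
theorem gB10 : ckG 32 tB10 tB11 = true := by decide +kernel
theorem gB11 : ckG 46 tB11 tB12 = true := by decide +kernel
theorem gB12 : ckG 66 tB12 tB13 = true := by decide +kernel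

theorem goodA : GoodSeq (sq tA 13) := by
  refine sq_good tA 13 (by norm_num) rfl (ckG_spec gA0) ?_
  intro k hk
  have h11 : k ≤ 11 := by omega
  interval_cases k
  · exact ckG_spec gA1
  · exact ckG_spec gA2
  · exact ckG_spec gA3
  · exact ckG_spec gA4
  · exact ckG_spec gA5
  · exact ckG_spec gA6
  · exact ckG_spec gA7
  · exact ckG_spec gA8
  · exact ckG_spec gA9
  · exact ckG_spec gA10
  · exact ckG_spec gA11
  · exact ckG_spec gA12

theorem goodB : GoodSeq (sq tB 13) := by
  refine sq_good tB 13 (by norm_num) rfl (ckG_spec gB0) ?_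
  intro k hk
  have h11 : k ≤ 11 := by omega
  interval_cases k
  · exact ckG_spec gB1
  · exact ckG_spec gB2
  · exact ckG_spec gB3
  · exact ckG_spec gB4
  · exact ckG_spec gB5
  · exact ckG_spec gB6
  · exact ckG_spec gB7
  · exact ckG_spec gB8
  · exact ckG_spec gB9
  · exact ckG_spec gB10
  · exact ckG_spec gB11
  · exact ckG_spec gB12

end DPD
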