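import Pool.Agent.H9.DP.Defs

/-!
Construction of graded posets from a covering relation.
-/

namespace DPC

open Relation

section
variable {V : Type} (r : V → ℕ) (cov : V → V → Prop)
  (hc : ∀ x y, cov x y → r y = r x + 1)

include hc in
theorem eq_or_lt {x y : V} (h : ReflTransGen cov x y) : x = y ∨ r x < r y := by
  induction h with
  | refl => exact Or.inl rfl
  | tail _ h2 ih =>
    right
    have := hc _ _ h2
    rcases ih with rfl | ih
    · omega
    · omega

/-- the partial order generated by the covering relation -/
@[reducible] def po : PartialOrder V where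
  le := ReflTransGen cov
  le_refl _ := ReflTransGen.refl
  le_trans _ _ _ := ReflTransGen.trans
  le_antisymm x y h1 h2 := by
    rcases eq_or_lt r cov hc h1 with h | h
    · exact h
    · rcases eq_or_lt r cov hc h2 with h' | h'
      · exact h'.symm
      · omega

theorem po_le {x y : V} : (po r cov hc).le x y ↔ ReflTransGen cov x y := Iff.rfl

theorem po_lt {x y : V} : (po r cov hc).lt x y ↔ (ReflTransGen cov x y ∧ x ≠ y) := by
  letI := po r cov hc
  exact lt_iff_le_and_ne

theorem po_lt_rank {x y : V} (h : (po r cov hc).lt x y) : r x < r y := by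
  rw [po_lt] at h
  rcases eq_or_lt r cov hc h.1 with h' | h'
  · exact absurd h' h.2
  · exact h'

theorem po_covBy {x y : V} : (letI := po r cov hc; x ⋖ y) ↔ cov x y := by
  letI := po r cov hc
  constructor
  · intro h
    have h1 := (po_lt r cov hc).1 h.1
    rcases ReflTransGen.cases_head h1.1 with h2 | ⟨z, h2, h3⟩
    · exact absurd h2 h1.2
    · by_cases hz : z = y
      · subst hz; exact h2
      · exfalso
        have hxz : x < z := (po_lt r cov hc).2 ⟨ReflTransGen.single h2, by
          rintro rfl
          have := hc _ _ h2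
          omega⟩
        have hzy : z < y := (po_lt r cov hc).2 ⟨h3, hz⟩
        exact h.2 hxz hzy
  · intro h
    have h1 := hc _ _ h
    refine ⟨(po_lt r cov hc).2 ⟨ReflTransGen.single h, ?_⟩, ?_⟩
    · rintro rfl
      omega
    · intro w hw1 hw2
      have h2 := po_lt_rank r cov hc hw1
      have h3 := po_lt_rank r cov hc hw2
      omega

variable (hfin : ∀ n, {x | r x = n}.Finite)

include hfin in
theorem finite_Icc (a b : V) : (letI := po r cov hc; Set.Icc a b).Finite := by
  letI := po r cov hc
  have h1 : {x | r x ≤ r b}.Finite := by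
    have : {x | r x ≤ r b} = ⋃ n ∈ Finset.range (r b + 1), {x | r x = n} := by
      ext x
      simp
    rw [this]
    exact Set.Finite.biUnion (Finset.finite_toSet _) (fun n _ => hfin n)
  refine h1.subset ?_
  intro x hx
  have h2 : ReflTransGen cov x b := hx.2
  show r x ≤ r b
  rcases eq_or_lt r cov hc h2 with h | h
  · rw [h]
  · omega

/-- local finiteness -/
@[reducible] noncomputable def lfo : @LocallyFiniteOrder V (po r cov hc).toPreorder :=
  letI := po r cov hc
  LocallyFiniteOrder.ofFiniteIcc (finite_Icc r cov hc hfin)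

variable (hlow : ∀ y, r y ≠ 0 → ∃ x, cov x y)

/-- the grading -/
@[reducible] def gmo : @GradeMinOrder ℕ V _ (po r cov hc).toPreorder :=
  letI := po r cov hc
  { grade := r
    grade_strictMono := fun _ _ h => po_lt_rank r cov hc h
    covBy_grade := fun a b h => by
      rw [Nat.covBy_iff_add_one_eq]
      exact (hc _ _ ((po_covBy r cov hc).1 h)).symm
    isMin_grade := fun a h => by
      have : r a = 0 := by
        by_contra h0
        obtain ⟨x, hx⟩ := hlow a h0
        have h1 : x < a := ((po_covBy r cov hc).2 hx).1
        exact h.not_lt h1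
      rw [this]
      exact isMin_bot }

end

open DifferentialPosets

/-- Existence of a `1`-differential poset with prescribed covering relation. -/
theorem exists_differential {V : Type} (r : V → ℕ) (cov : V → V → Prop)
    (hc : ∀ x y, cov x y → r y = r x + 1) (hfin : ∀ n, {x | r x = n}.Finite)
    (hlow : ∀ y, r y ≠ 0 → ∃ x, cov x y) (hz : ∃! x, r x = 0)
    (hcom : ∀ x y, x ≠ y → {z | cov z x ∧ cov z y}.encard = {z | cov x z ∧ cov y z}.encard)
    (hup : ∀ x, {z | cov x z}.encard = {z | cov z x}.encard + 1) (p : ℕ → ℕ)
    (hp : ∀ n : ℕ, {x | r x = n}.encard = p n) : p ∈ rankFunctions 1 := by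
  letI := po r cov hc
  letI := lfo r cov hc hfin
  letI := gmo r cov hc hlow
  refine ⟨V, po r cov hc, lfo r cov hc hfin, gmo r cov hc hlow, ?_, hp⟩
  have hcv : ∀ x y : V, x ⋖ y ↔ cov x y := fun x y => po_covBy r cov hc
  refine ⟨hz, ?_, ?_⟩
  · intro x y hxy
    simp only [hcv]
    exact hcom x y hxy
  · intro x
    simp only [hcv]
    exact hup x

end DPC
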