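import Mathlib

/-!
# Differential posets, their rank functions, and the Interval Property
-/

namespace DifferentialPosets

/-- `P` is an `r`-differential poset: `P` is a locally finite graded poset (all minimal elements
have rank `0`) with exactly one element of rank `0` such that

* for any two distinct `x, y`, the number of elements covered by both `x` and `y` equals the
  number of elements covering both `x` and `y`;
* if `x` covers exactly `m` elements, then exactly `m + r` elements cover `x`. -/
structure IsDifferential (r : ℕ) (P : Type*) [PartialOrder P] [LocallyFiniteOrder P]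
    [GradeMinOrder ℕ P] : Prop where
  existsUnique_rank_zero : ∃! x : P, grade ℕ x = 0
  common : ∀ x y : P, x ≠ y →
    {z : P | z ⋖ x ∧ z ⋖ y}.encard = {z : P | x ⋖ z ∧ y ⋖ z}.encard
  covers : ∀ x : P, {z : P | x ⋖ z}.encard = {z : P | z ⋖ x}.encard + r

/-- The set of all rank functions `n ↦ |P_n|` of `r`-differential posets `P`. -/
def rankFunctions (r : ℕ) : Set (ℕ → ℕ) :=
  {p | ∃ (P : Type) (_ : PartialOrder P) (_ : LocallyFiniteOrder P) (_ : GradeMinOrder ℕ P),
    IsDifferential r P ∧ ∀ n : ℕ, {x : P | grade ℕ x = n}.encard = p n}

/-- The Interval Property of a set `S` of sequences: if `h, h' ∈ S` agree except at the index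
`i`, where `h' i = h i + α` with `α > 0`, then `S` contains all sequences obtained from `h` by
replacing the entry `h i` with `h i + β`, `0 ≤ β ≤ α`. -/
def IntervalProperty (S : Set (ℕ → ℕ)) : Prop :=
  ∀ h ∈ S, ∀ h' ∈ S, ∀ i α : ℕ, 0 < α → (∀ j, j ≠ i → h' j = h j) → h' i = h i + α →
    ∀ β ≤ α, Function.update h i (h i + β) ∈ S

end DifferentialPosets
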