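import Pool.Agent.H9.DP.Start
import Pool.Agent.H9.DP.Defs

namespace DPS
open DifferentialPosets

variable {P : Type*} [PartialOrder P] [LocallyFiniteOrder P] [GradeMinOrder ℕ P]

theorem grade_of_covBy {x y : P} (h : x ⋖ y) : grade ℕ y = grade ℕ x + 1 := by
  have := CovBy.grade (𝕆 := ℕ) h
  rw [Nat.covBy_iff_add_one_eq] at this
  exact this.symm

/-- Two distinct elements have at most one common lower cover. -/
theorem common_le_one (hP : IsDifferential 1 P) : ∀ (k : ℕ) (x y : P), x ≠ y → grade ℕ x = k →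
    {z : P | z ⋖ x ∧ z ⋖ y}.encard ≤ 1 := by
  intro k
  induction k with
  | zero =>
    intro x y _ hx
    have : {z : P | z ⋖ x ∧ z ⋖ y} = ∅ := by
      ext z
      simp only [Set.mem_setOf_eq, Set.mem_empty_iff_false, iff_false]
      rintro ⟨h, _⟩
      have := grade_of_covBy h
      omega
    rw [this]
    simp
  | succ k ih =>
    intro x y hxy hx
    rw [Set.encard_le_one_iff]
    intro z z' hz hz'
    by_contra hne
    have h1 := ih z z' hne (by have := grade_of_covBy hz.1; omega)
    rw [hP.common z z' hne, Set.encard_le_one_iff] at h1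
    exact hxy (h1 x y ⟨hz.1, hz'.1⟩ ⟨hz.2, hz'.2⟩)

theorem exists_lower (x : P) (k : ℕ) (hx : grade ℕ x = k + 1) : ∃ z : P, z ⋖ x := by
  have h1 : ¬ IsMin x := by
    intro h
    have h2 := GradeMinOrder.isMin_grade (𝕆 := ℕ) h
    have h3 : grade ℕ x ≤ 0 := h2 (Nat.zero_le _)
    omega
  rw [not_isMin_iff] at h1
  obtain ⟨z, hz⟩ := h1
  obtain ⟨c, _, hc⟩ := exists_le_covBy_of_lt hz
  exact ⟨c, hc⟩

/-- The elements of rank `k`. -/
abbrev Rk (P : Type*) [PartialOrder P] [LocallyFiniteOrder P] [GradeMinOrder ℕ P] (k : ℕ) :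
    Type _ := {x : P // grade ℕ x = k}

/-- The list `L` of masks represents the elements of rank `k` and their lower covers. -/
def Rep (P : Type*) [PartialOrder P] [LocallyFiniteOrder P] [GradeMinOrder ℕ P] (k : ℕ)
    (L : List ℕ) : Prop :=
  ∃ e : Fin L.length ≃ Rk P k,
    (∀ i : Fin L.length, {z : P | z ⋖ (e i).1}.encard = pc (L[i])) ∧
    (∀ i j : Fin L.length, i ≠ j →
      ((∃ z : P, z ⋖ (e i).1 ∧ z ⋖ (e j).1) ↔ (L[i] &&& L[j]) ≠ 0)) ∧
    ∀ a ∈ L, a < 2 ^ 64

open Classical in
/-- The mask of an element of rank `k + 1`. -/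
noncomputable def mask {k n : ℕ} (e : Fin n ≃ Rk P k) (w : P) : ℕ :=
  Nat.ofBits fun i : Fin n => decide ((e i).1 ⋖ w)

theorem mask_testBit {k n : ℕ} (e : Fin n ≃ Rk P k) (w : P) (i : ℕ) :
    (mask e w).testBit i = true ↔ ∃ h : i < n, (e ⟨i, h⟩).1 ⋖ w := by
  unfold mask
  rw [Nat.testBit_ofBits]
  split_ifs with h
  · simp [h]
  · simp [h]

theorem mask_lt {k n : ℕ} (e : Fin n ≃ Rk P k) (w : P) : mask e w < 2 ^ n :=
  Nat.ofBits_lt_two_pow _

theorem mask_ne_zero {k n : ℕ} (e : Fin n ≃ Rk P k) (w : Rk P (k + 1)) : mask e w.1 ≠ 0 := by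
  obtain ⟨z, hz⟩ := exists_lower w.1 k w.2
  have hg := grade_of_covBy hz
  have h2 := w.2
  have : (mask e w.1).testBit (e.symm ⟨z, by omega⟩).1 = true := by
    rw [mask_testBit]
    exact ⟨(e.symm ⟨z, by omega⟩).2, by simpa using hz⟩
  intro h0
  rw [h0] at this
  simp at this

theorem perm_map_exists {α β : Type*} {f : α → β} {l0 : List β} {l : List β} (h : l0.Perm l) :
    ∀ m : List α, m.map f = l0 → ∃ l' : List α, l'.Perm m ∧ l'.map f = l := by
  induction h with
  | nil => intro m hm; exact ⟨m, List.Perm.refl _, hm⟩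
  | cons x _ ih =>
    intro m hm
    cases m with
    | nil => simp at hm
    | cons a m =>
      simp only [List.map_cons, List.cons.injEq] at hm
      obtain ⟨l', h1, h2⟩ := ih m hm.2
      exact ⟨a :: l', h1.cons a, by simp [h2, hm.1]⟩
  | swap x y l =>
    intro m hm
    match m, hm with
    | [], hm => simp at hm
    | [a], hm => simp at hm
    | a :: b :: m, hm =>
      simp only [List.map_cons, List.cons.injEq] at hm
      exact ⟨b :: a :: m, List.Perm.swap _ _ _, by simp [hm.1, hm.2.1, hm.2.2]⟩
  | trans _ _ ih1 ih2 =>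
    intro m hm
    obtain ⟨l', h1, h2⟩ := ih1 m hm
    obtain ⟨l'', h3, h4⟩ := ih2 l' h2
    exact ⟨l'', h3.trans h1, h4⟩

theorem encard_subtype {k : ℕ} [Fintype (Rk P k)] (q : P → Prop) [DecidablePred q]
    (hq : ∀ z, q z → grade ℕ z = k) :
    {z : P | q z}.encard = ((Finset.univ : Finset (Rk P k)).filter fun w => q w.1).card := by
  have h1 : {z : P | q z} = Subtype.val ''
      (((Finset.univ : Finset (Rk P k)).filter fun w => q w.1 : Finset (Rk P k)) :
        Set (Rk P k)) := by
    ext z
    simp only [Set.mem_setOf_eq, Finset.coe_filter, Finset.mem_univ, true_and, Set.mem_image]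
    constructor
    · intro h
      exact ⟨⟨z, hq z h⟩, h, rfl⟩
    · rintro ⟨w, hw, rfl⟩
      exact hw
  rw [h1, Function.Injective.encard_image Subtype.val_injective, Set.encard_coe_eq_coe_finsetCard]

theorem sum_map_boole {α : Type*} [Fintype α] (f : α → ℕ) (q : ℕ → Prop) [DecidablePred q] :
    (((Finset.univ : Finset α).val.map f).map fun B => if q B then 1 else 0).sum
      = ((Finset.univ : Finset α).filter fun w => q (f w)).card := by
  rw [Multiset.map_map, Finset.card_filter]
  rfl

theorem pc_mask {k n : ℕ} (hn : n ≤ 64) (e : Fin n ≃ Rk P k) (w : Rk P (k + 1)) :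
    {z : P | z ⋖ w.1}.encard = pc (mask e w.1) := by
  classical
  haveI : Fintype (Rk P k) := Fintype.ofEquiv _ e
  rw [encard_subtype (k := k) (fun z => z ⋖ w.1)
    (fun z hz => by have := grade_of_covBy hz; have := w.2; omega)]
  congr 1
  unfold pc
  symm
  apply Finset.card_bij (fun (j : ℕ) hj => e ⟨j, by
    rw [Finset.mem_filter] at hj
    exact ((mask_testBit e w.1 j).1 hj.2).1⟩)
  · intro j hj
    rw [Finset.mem_filter] at hj
    obtain ⟨h1, h2⟩ := (mask_testBit e w.1 j).1 hj.2
    simp only [Finset.mem_filter, Finset.mem_univ, true_and]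
    exact h2
  · intro a ha b hb hab
    have := e.injective hab
    simpa using this
  · intro b hb
    rw [Finset.mem_filter] at hb
    refine ⟨(e.symm b).1, ?_, ?_⟩
    · rw [Finset.mem_filter, Finset.mem_range, mask_testBit]
      refine ⟨by have := (e.symm b).2; omega, (e.symm b).2, ?_⟩
      simpa using hb.2
    · simp

theorem start_len {goal : ℕ} {check : List ℕ → Bool} {L : List ℕ}
    (h : start goal check L = true) : L.length ≤ 64 := by
  rw [start_eq] at h
  by_contra hcon
  have : Nat.ble L.length 64 = false := by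
    rw [← Bool.not_eq_true, Nat.ble_eq]; exact hcon
  rw [this] at h
  simp at h

/-- One step of the search. -/
theorem rep_step (hP : IsDifferential 1 P) {k goal : ℕ} {check : List ℕ → Bool} {L : List ℕ}
    (hsz : {x : P | grade ℕ x = k + 1}.encard = goal) (hL : Rep P k L)
    (hs : start goal check L = true) : ∃ L', check L' = true ∧ Rep P (k + 1) L' := by
  classical
  obtain ⟨e, he1, he2, he3⟩ := hL
  have hn := start_len hs
  haveI : Finite (Rk P (k + 1)) := by
    have : {x : P | grade ℕ x = k + 1}.Finite := Set.finite_of_encard_eq_coe hsz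
    exact this.to_subtype
  haveI : Fintype (Rk P (k + 1)) := Fintype.ofFinite _
  set M : Multiset ℕ := (Finset.univ : Finset (Rk P (k + 1))).val.map fun w => mask e w.1 with hMdef
  have hcardR : (Finset.univ : Finset (Rk P (k + 1))).card = goal := by
    have h1 := encard_subtype (P := P) (k := k + 1) (fun z => grade ℕ z = k + 1) (fun z hz => hz)
    rw [hsz] at h1
    have h2 : goal = ((Finset.univ : Finset (Rk P (k + 1))).filter
        fun w => grade ℕ w.1 = k + 1).card := by exact_mod_cast h1
    rw [h2]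
    congr 1
    ext w
    simp [w.2]
  have hgrade : ∀ (i : Fin L.length), grade ℕ (e i).1 = k := fun i => (e i).2
  obtain ⟨L', hL1, hL2⟩ := start_sound goal check L hs he3 M
    (by
      intro B hB
      obtain ⟨w, _, rfl⟩ := Multiset.mem_map.1 hB
      exact ⟨mask_ne_zero e w, mask_lt e w.1⟩)
    (by
      rw [hMdef, Multiset.card_map]
      exact hcardR)
    (by
      intro i hi
      unfold cnt
      rw [hMdef, sum_map_boole (fun w : Rk P (k + 1) => mask e w.1) (fun B => B.testBit i = true)]
      have h1 := encard_subtype (P := P) (k := k + 1) (fun z => (e ⟨i, hi⟩).1 ⋖ z)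
        (fun z hz => by have := grade_of_covBy hz; have := hgrade ⟨i, hi⟩; omega)
      rw [hP.covers, he1 ⟨i, hi⟩] at h1
      have h2 : pc (L.getD i 0) + 1 = ((Finset.univ : Finset (Rk P (k + 1))).filter
          fun w => (e ⟨i, hi⟩).1 ⋖ w.1).card := by
        rw [List.getD_eq_getElem _ _ hi]
        exact_mod_cast h1
      rw [h2]
      congr 1
      ext w
      simp only [Finset.mem_filter, Finset.mem_univ, true_and]
      rw [mask_testBit]
      constructor
      · rintro ⟨_, h⟩; exact h
      · intro h; exact ⟨hi, h⟩)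
    (by
      intro i hi j hj hij
      unfold pr
      rw [hMdef, sum_map_boole (fun w : Rk P (k + 1) => mask e w.1)
        (fun B => B.testBit i = true ∧ B.testBit j = true)]
      have hne : (⟨i, hi⟩ : Fin L.length) ≠ ⟨j, hj⟩ := by
        intro h; exact hij (by simpa using h)
      have hne' : (e ⟨i, hi⟩).1 ≠ (e ⟨j, hj⟩).1 := by
        intro h
        exact hne (e.injective (Subtype.ext h))
      have h1 := encard_subtype (P := P) (k := k + 1)
        (fun z => (e ⟨i, hi⟩).1 ⋖ z ∧ (e ⟨j, hj⟩).1 ⋖ z)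
        (fun z hz => by have := grade_of_covBy hz.1; have := hgrade ⟨i, hi⟩; omega)
      rw [← hP.common _ _ hne'] at h1
      have h3 := common_le_one hP _ _ _ hne' rfl
      have h4 : ((Finset.univ : Finset (Rk P (k + 1))).filter
          fun w => (mask e w.1).testBit i = true ∧ (mask e w.1).testBit j = true)
          = ((Finset.univ : Finset (Rk P (k + 1))).filter
          fun w => (e ⟨i, hi⟩).1 ⋖ w.1 ∧ (e ⟨j, hj⟩).1 ⋖ w.1) := by
        ext w
        simp only [Finset.mem_filter, Finset.mem_univ, true_and]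
        rw [mask_testBit, mask_testBit]
        constructor
        · rintro ⟨⟨_, h⟩, ⟨_, h'⟩⟩; exact ⟨h, h'⟩
        · rintro ⟨h, h'⟩; exact ⟨⟨hi, h⟩, ⟨hj, h'⟩⟩
      rw [h4]
      rw [List.getD_eq_getElem _ _ hi, List.getD_eq_getElem _ _ hj]
      have h5 := he2 ⟨i, hi⟩ ⟨j, hj⟩ hne
      simp only [Fin.getElem_fin] at h5
      by_cases h6 : (L[i] &&& L[j]) = 0
      · rw [if_pos h6]
        have h7 : {z : P | z ⋖ (e ⟨i, hi⟩).1 ∧ z ⋖ (e ⟨j, hj⟩).1} = ∅ := by
          ext z
          simp only [Set.mem_setOf_eq, Set.mem_empty_iff_false, iff_false]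
          intro h
          exact (h5.1 ⟨z, h⟩) h6
        rw [h7, Set.encard_empty] at h1
        exact_mod_cast h1.symm
      · rw [if_neg h6]
        have h7 : {z : P | z ⋖ (e ⟨i, hi⟩).1 ∧ z ⋖ (e ⟨j, hj⟩).1}.encard = 1 := by
          apply le_antisymm h3
          rw [Set.one_le_encard_iff_nonempty]
          exact h5.2 h6
        rw [h7] at h1
        exact_mod_cast h1.symm)
  refine ⟨L', hL1, ?_⟩
  -- the enumeration of the elements of rank `k + 1`
  have hperm : ((Finset.univ : Finset (Rk P (k + 1))).toList.map fun w => mask e w.1).Perm L' := by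
    rw [← Multiset.coe_eq_coe, hL2, hMdef, ← Multiset.map_coe, Finset.coe_toList]
  obtain ⟨l', hl1, hl2⟩ := perm_map_exists (f := fun w : Rk P (k + 1) => mask e w.1) hperm _ rfl
  subst hl2
  have hnd : l'.Nodup := hl1.nodup_iff.2 (Finset.nodup_toList _)
  have hmem : ∀ x, x ∈ l' := fun x => hl1.mem_iff.2 (by simp)
  let e0 := hnd.getEquivOfForallMemList l' hmem
  let e' : Fin (l'.map fun w : Rk P (k + 1) => mask e w.1).length ≃ Rk P (k + 1) :=
    (finCongr (List.length_map _)).trans e0
  have hget : ∀ i : Fin (l'.map fun w : Rk P (k + 1) => mask e w.1).length,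
      (l'.map fun w : Rk P (k + 1) => mask e w.1)[i] = mask e (e' i).1 := by
    intro i
    simp only [Fin.getElem_fin, List.getElem_map]
    rfl
  refine ⟨e', ?_, ?_, ?_⟩
  · intro i
    rw [hget i]
    exact pc_mask hn e (e' i)
  · intro i j hij
    rw [hget i, hget j]
    constructor
    · rintro ⟨z, hz1, hz2⟩ h0
      have hg : grade ℕ z = k := by
        have := grade_of_covBy hz1
        have := (e' i).2
        omega
      have hb : (mask e (e' i).1 &&& mask e (e' j).1).testBit (e.symm ⟨z, hg⟩).1 = true := by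
        rw [Nat.testBit_and, Bool.and_eq_true, mask_testBit, mask_testBit]
        exact ⟨⟨(e.symm ⟨z, hg⟩).2, by simpa using hz1⟩, ⟨(e.symm ⟨z, hg⟩).2, by simpa using hz2⟩⟩
      rw [h0] at hb
      simp at hb
    · intro h0
      obtain ⟨m, hm⟩ := Nat.exists_testBit_of_ne_zero h0
      rw [Nat.testBit_and, Bool.and_eq_true, mask_testBit, mask_testBit] at hm
      obtain ⟨⟨h, h1⟩, ⟨_, h2⟩⟩ := hm
      exact ⟨_, h1, h2⟩
  · intro a ha
    obtain ⟨w, _, rfl⟩ := List.mem_map.1 ha
    exact lt_of_lt_of_le (mask_lt e w.1) (Nat.pow_le_pow_right (by norm_num) hn)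

theorem refute_nil (L : List ℕ) : refute [] L = false := rfl
theorem refute_cons (g : ℕ) (gs L : List ℕ) : refute (g :: gs) L = start g (refute gs) L := rfl

/-- Soundness of the whole search. -/
theorem refute_sound (hP : IsDifferential 1 P) (p : ℕ → ℕ)
    (hp : ∀ n : ℕ, {x : P | grade ℕ x = n}.encard = p n) :
    ∀ (gs : List ℕ) (k : ℕ) (L : List ℕ), refute gs L = true → Rep P k L →
      (∀ m (h : m < gs.length), p (k + 1 + m) = gs[m]) → False := by
  intro gs
  induction gs with
  | nil => intro k L h; rw [refute_nil] at h; exact absurd h (by simp)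
  | cons g gs ih =>
    intro k L h hL hgs
    rw [refute_cons] at h
    have h0 := hgs 0 (by simp)
    simp only [Nat.add_zero, List.getElem_cons_zero] at h0
    obtain ⟨L', h1, h2⟩ := rep_step hP (goal := g) (by rw [hp, h0]) hL h
    refine ih (k + 1) L' h1 h2 (fun m hm => ?_)
    have := hgs (m + 1) (by simpa using hm)
    simp only [List.getElem_cons_succ] at this
    rw [← this]
    congr 1
    ring

theorem rep_zero (hP : IsDifferential 1 P) : Rep P 0 [0] := by
  obtain ⟨b, hb, hb2⟩ := hP.existsUnique_rank_zero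
  have hu : ∀ w : Rk P 0, w = ⟨b, hb⟩ := fun w => Subtype.ext (hb2 w.1 w.2)
  let e : Fin [0].length ≃ Rk P 0 :=
    { toFun := fun _ => ⟨b, hb⟩
      invFun := fun _ => 0
      left_inv := fun i => by
        have h1 : i.1 < 1 := i.2
        apply Fin.ext
        show 0 = i.1
        omega
      right_inv := fun w => (hu w).symm }
  refine ⟨e, ?_, ?_, ?_⟩
  · intro i
    have h1 : {z : P | z ⋖ (e i).1} = ∅ := by
      ext z
      simp only [Set.mem_setOf_eq, Set.mem_empty_iff_false, iff_false]
      intro h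
      have := grade_of_covBy h
      have := (e i).2
      omega
    rw [h1]
    simp [pc_zero]
  · intro i j hij
    exfalso
    apply hij
    have h1 : i.1 < 1 := i.2
    have h2 : j.1 < 1 := j.2
    apply Fin.ext
    omega
  · intro a ha
    simp only [List.mem_singleton] at ha
    subst ha
    norm_num

/-- If the search refutes the sizes `gs` then no `1`-differential poset has the rank sizes
`1, gs[0], gs[1], …`. -/
theorem no_poset (gs : List ℕ) (h : refute gs [0] = true) (hP : IsDifferential 1 P) (p : ℕ → ℕ)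
    (hp : ∀ n : ℕ, {x : P | grade ℕ x = n}.encard = p n) :
    ¬ ∀ m (h : m < gs.length), p (m + 1) = gs[m] := by
  intro hgs
  refine refute_sound hP p hp gs 0 [0] h (rep_zero hP) (fun m hm => ?_)
  rw [← hgs m hm]
  congr 1
  ring

end DPS
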