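import Mathlib

/-!
Search procedure for the rank structures of 1-differential posets.
-/

namespace DPS

/-- table of lower bounds, 16 bits per entry, index `16 * c + d` -/
def TBL : ℕ := 7171366059762004005471712022301295553895435925853401928703287195581191743843303325997102632143706050393284375945076350660792127641762422014113276314924750690198111604872415016331841412122103789312684982743036945857455569020622309047105136709714341363008349755114072899748815524940628941771083367580578982603588513847873901295597305528413236674206180213834675145343092088514306810723661992372617553637956127249426960863570179833940398937269283409807055874077545681690584940846644276007887577880317666600950840192919058710820337708921258213448079841843323432426183334929861119173227532888447018700153375177474887519823119537938759077506162230858618210870961317273276299572357607289830632499248701398936310125708586036443137822526607710853170585237024402467572756973297346378920394928601683012625306537482098545343877733486578299881694573675612868155046382669651494892503616868209300131624667097491870568865165491118819508262971998774799056669568296843192275946119309945897809924308785924823681603823027865954613677107009968461389785162325233890664527167075386145675294557998582170787226457818948739301097718559708486915691238645175905160409185031605863523878139712824042423895969302559920800583814160480360804517106851219461520752640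

/-- heuristics table (no influence on correctness), 8 bits per entry -/
def SLT : ℕ := 6970334642831785888389483207360185711735118963426603582570408471290467954958265841309045826419047509665575168754023272786186110003135608110871647496763410757677588128278631065567399743699425642793142217564174679871712037769433983263969382383462976848185819706978155408030962894486974319645289038340587069827434946921589974078202340105694650892564743676299586003255196011004224525601088647209005148324227736661026158328397671387761049022725889684193428538142267329079904837771293151040961367915724212786639397147595300243940491585196926837145202089861604625068918267928431621971534526543825467023849949814712434170112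

/-- evaluate `n` (in the kernel) before going on -/
noncomputable def force {α : Type} (n : ℕ) (k : ℕ → α) : α :=
  Nat.rec (k 0) (fun m _ => k (Nat.succ m)) n

/-- evaluate `n` (in the kernel) before going on, tagging it with its residue modulo a prime
(this makes the hash codes of the literals well distributed) -/
noncomputable def forceT {α : Type} (n : ℕ) (k : ℕ → α) : α :=
  force (Nat.add (Nat.mul n 4294967296) (Nat.mod n 4294967291)) fun x => k (Nat.div x 4294967296)

def tb (x : ℕ) : ℕ := Nat.land (Nat.shiftRight TBL (Nat.mul 16 x)) 65535
def sl (x : ℕ) : ℕ := Nat.land (Nat.shiftRight SLT (Nat.mul 8 x)) 255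
/-- the digit (base 256) of `N` at the position `a` when `p = 2 ^ a` -/
def dig (N p : ℕ) : ℕ := Nat.land (Nat.div N (Nat.pow p 8)) 255
/-- the row (base 2 ^ 64) of `Rw` at the position `a` when `p = 2 ^ a` -/
def rowOf (Rw p : ℕ) : ℕ := Nat.land (Nat.div Rw (Nat.pow p 64)) 18446744073709551615
/-- lowest bit -/
def lowp (x : ℕ) : ℕ := Nat.gcd x 18446744073709551616

/-- enumerate cliques -/
noncomputable def clq (Rw : ℕ) (k : ℕ → ℕ → Bool) (fuel : ℕ) : ℕ → ℕ → ℕ → Bool :=
  Nat.rec (fun _ _ _ => false)
    (fun _ ih blk s cand =>
      cond (Nat.beq cand 0) (k blk s)
        (forceT (lowp cand) fun p => forceT (Nat.xor cand p) fun c' =>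
         cond (ih blk s c')
          (forceT (Nat.lor blk p) fun b' => forceT (Nat.land c' (rowOf Rw p)) fun c'' =>
            ih b' (Nat.succ s) c'')
          false)) fuel

/-- update the state for a chosen block `B` of size `t + 1` -/
noncomputable def upd (B t : ℕ) (k : ℕ → ℕ → ℕ → ℕ → Bool) (fuel : ℕ) :
    ℕ → ℕ → ℕ → ℕ → ℕ → Bool :=
  Nat.rec (fun m Rw CD W T => cond (Nat.beq m 0) (k Rw CD W T) false)
    (fun _ ih m Rw CD W T =>
      cond (Nat.beq m 0) (k Rw CD W T)
        (forceT (lowp m) fun p => forceT (dig CD p) fun x => cond (Nat.ble (Nat.add 16 t) x)
          (forceT (Nat.xor m p) fun m' =>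
            forceT (Nat.xor Rw (Nat.mul (Nat.xor B p) (Nat.pow p 64))) fun Rw' =>
            forceT (Nat.sub CD (Nat.mul (Nat.add 16 t) (Nat.pow p 8))) fun CD' =>
            forceT (Nat.sub (Nat.add W (tb (Nat.sub x (Nat.add 16 t)))) (tb x)) fun W' =>
            forceT (Nat.xor (Nat.xor T
              (cond (Nat.beq (Nat.land x 15) 0) 0
                (Nat.shiftLeft p (Nat.mul 64 (sl x)))))
              (cond (Nat.beq (Nat.land x 15) t) 0
                (Nat.shiftLeft p (Nat.mul 64 (sl (Nat.sub x (Nat.add 16 t))))))) fun T' =>
            ih m' Rw' CD' W' T')
          true)) fuel

/-- singletons -/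
noncomputable def singles (CD : ℕ) (n : ℕ) : List ℕ :=
  Nat.rec [] (fun i ih => List.replicate (Nat.div (dig CD (Nat.pow 2 i)) 16) (Nat.pow 2 i) ++ ih) n

noncomputable def go (n : ℕ) (check : List ℕ → Bool) (fuel : ℕ) :
    List ℕ → ℕ → ℕ → ℕ → ℕ → ℕ → Bool :=
  Nat.rec (fun _ _ _ _ _ _ => false)
    (fun _ ih Bs rem Rw CD W T =>
      cond (Nat.beq T 0)
        (cond (Nat.beq Rw 0)
          (cond (Nat.beq (singles CD n).length rem) (check (Bs.reverse ++ singles CD n)) true)
          false)
        (forceT (Nat.mod (Nat.gcd T 1044388881413152506691752710716624382579964249047383780384233483283953907971557456848826811934997558340890106714439262837987573438185793607263236087851365277945956976543709998340361590134383718314428070011855946226376318839397712745672334684344586617496807908705803704071284048740118609114467977783598029006686938976881787785946905630190260940599579453432823469303026696443059025015972399867714215541693835559885291486318237914434496734087811872639496475100189041349008417061675093668333850551032972088269550769983616369411933015213796825837188091833656751221318492846368125550225998300412344784862595674492194617023806505913245610825731835380087608622102834270197698202313169017678006675195485079921636419370285375124784014907159135459982790513399611551794271106831134090584272884279791554849782954323534517065223269061394905987693002122963395687782878948440616007412945674919823050571642377154816321380631045902916136926708342856440730447899971901781465763473223850267253059899795996090799469201774624817718449867455659250178329070473119433165550807568221846571746373296884912819520317457002440926616910874148385078411929804522981857338977648103126085903001302413467189726673216491511131602920781738033436090243804708340403154190336)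 18446744073709551615) fun p =>
          forceT (rowOf Rw p) fun r => cond (Nat.beq r 0) false
          (forceT (lowp r) fun q => forceT (Nat.lor p q) fun b =>
           forceT (Nat.land r (rowOf Rw q)) fun c =>
           forceT (Nat.pred rem) fun rem' => 
           clq Rw
            (fun B s => upd B (Nat.pred s)
              (fun Rw' CD' W' T' =>
                cond (Nat.ble W' (Nat.mul 60 rem'))
                  (ih (B :: Bs) rem' Rw' CD' W' T') true)
              s B Rw CD W T)
            64 b 2 c)))
    fuel

/-- popcount -/
noncomputable def pcf (fuel : ℕ) : ℕ → ℕ :=
  Nat.rec (fun _ => 0) (fun _ ih x => cond (Nat.beq x 0) 0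
    (Nat.succ (forceT (Nat.xor x (lowp x)) ih))) fuel

/-- mask of the list of entries meeting `b`, skipping index `i` -/
noncomputable def rmask (b i : ℕ) (l : List ℕ) : ℕ → ℕ :=
  List.rec (fun _ => 0)
    (fun a _ ih j => Nat.add (cond (Nat.beq j i) 0 (cond (Nat.beq (Nat.land a b) 0) 0 1))
      (Nat.mul 2 (ih (Nat.succ j)))) l

/-- all row masks -/
noncomputable def rmasks (L : List ℕ) (l : List ℕ) : ℕ → List ℕ :=
  List.rec (fun _ => []) (fun a _ ih i => forceT (rmask a i L 0) (fun r => r :: ih (Nat.succ i))) l

noncomputable def pack (s : ℕ) (l : List ℕ) : ℕ :=
  List.rec 0 (fun a _ ih => Nat.add a (Nat.shiftLeft ih s)) l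

/-- the codes `16 * cap + deg` -/
noncomputable def codes (l : List ℕ) : List ℕ → List ℕ :=
  List.rec (fun _ => []) (fun a _ ih r =>
    List.rec [] (fun b t _ => forceT (Nat.add (Nat.mul 16 (Nat.succ (pcf 64 a))) (pcf 64 b))
      (fun c => c :: ih t)) r) l

/-- the capacities and degrees are small -/
noncomputable def okc (l : List ℕ) : List ℕ → Bool :=
  List.rec (fun _ => true) (fun a _ ih r =>
    List.rec true (fun b t _ => cond (Nat.ble (pcf 64 a) 14) (cond (Nat.ble (pcf 64 b) 15)
      (ih t) false) false) r) l

noncomputable def sumW (l : List ℕ) : ℕ := List.rec 0 (fun a _ ih => Nat.add (tb a) ih) l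

noncomputable def initT (l : List ℕ) : ℕ → ℕ :=
  List.rec (fun _ => 0) (fun x _ ih i =>
    Nat.add (cond (Nat.beq (Nat.land x 15) 0) 0 (Nat.shiftLeft 1 (Nat.add (Nat.mul 64 (sl x)) i)))
      (ih (Nat.succ i))) l

noncomputable def start (goal : ℕ) (check : List ℕ → Bool) (L : List ℕ) : Bool :=
  forceT (sumW (codes L (rmasks L L 0))) fun W =>
  cond (Nat.ble L.length 64) (cond (okc L (rmasks L L 0)) (cond (Nat.ble W (Nat.mul 60 goal))
    (forceT L.length fun n => forceT (pack 64 (rmasks L L 0)) fun Rw =>
      forceT (pack 8 (codes L (rmasks L L 0))) fun CD =>
      forceT (initT (codes L (rmasks L L 0)) 0) fun T =>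
      go n check 64 [] goal Rw CD W T)
    true) false) false

noncomputable def refute (gs : List ℕ) : List ℕ → Bool :=
  List.rec (fun _ => false) (fun g _ ih L => start g ih L) gs

end DPS
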