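import Pool.Agent.H9.DP.Seq
import Pool.Agent.H9.DP.Search

/-!
The reflection extension, and a checker for explicit lists.
-/

namespace DPC

/-- the reflection extension -/
def rfx (n : ℕ) (l : List ℕ) : List ℕ :=
  (List.range n).map (fun j => upm j l) ++ (List.range l.length).map (fun i => 2 ^ i)

theorem rfx_length (n : ℕ) (l : List ℕ) : (rfx n l).length = n + l.length := by
  simp [rfx]

theorem rfx_getD_lt {n : ℕ} {l : List ℕ} {m : ℕ} (h : m < n) : (rfx n l).getD m 0 = upm m l := by
  rw [List.getD_eq_getElem _ _ (by rw [rfx_length]; omega)]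
  unfold rfx
  rw [List.getElem_append_left (by simpa using h)]
  simp

theorem rfx_getD_ge {n : ℕ} {l : List ℕ} {m : ℕ} (h : m < l.length) :
    (rfx n l).getD (n + m) 0 = 2 ^ m := by
  rw [List.getD_eq_getElem _ _ (by rw [rfx_length]; omega)]
  unfold rfx
  rw [List.getElem_append_right (by simp)]
  simp

theorem upm_rfx_lt {n : ℕ} {l : List ℕ} {i m : ℕ} (hm : m < n) :
    (upm i (rfx n l)).testBit m = (l.getD i 0).testBit m := by
  rw [upm_testBit, rfx_getD_lt hm, upm_testBit]

theorem upm_rfx_ge {n : ℕ} {l : List ℕ} {i m : ℕ} (hm : m < l.length) :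
    (upm i (rfx n l)).testBit (n + m) = decide (m = i) := by
  rw [upm_testBit, rfx_getD_ge hm, Nat.testBit_two_pow]

theorem upm_lt (i : ℕ) (l : List ℕ) : upm i l < 2 ^ l.length := by
  apply Nat.lt_pow_two_of_testBit
  intro m hm
  rw [upm_testBit, List.getD_eq_default _ _ hm]
  simp

/-- The reflection extension is compatible. -/
theorem G.reflect {n : ℕ} {a b : List ℕ} (h : G n a b) : G a.length b (rfx a.length b) := by
  refine ⟨?_, ?_, ?_⟩
  · intro x hx
    unfold rfx at hx
    rw [List.mem_append] at hx
    rcases hx with hx | hx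
    · obtain ⟨j, hj, rfl⟩ := List.mem_map.1 hx
      refine ⟨?_, upm_lt j b⟩
      intro h0
      have := h.deg j (List.mem_range.1 hj)
      rw [h0] at this
      simp [pcs] at this
    · obtain ⟨j, hj, rfl⟩ := List.mem_map.1 hx
      exact ⟨by positivity, Nat.pow_lt_pow_right (by norm_num) (List.mem_range.1 hj)⟩
  · intro i hi
    rw [rfx_length]
    unfold pcs
    have : ((Finset.range (a.length + b.length)).filter
        fun j => (upm i (rfx a.length b)).testBit j = true)
        = insert (a.length + i) ((Finset.range a.length).filter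
          fun j => (b.getD i 0).testBit j = true) := by
      ext m
      simp only [Finset.mem_filter, Finset.mem_range, Finset.mem_insert]
      constructor
      · rintro ⟨h1, h2⟩
        by_cases hm : m < a.length
        · right
          rw [upm_rfx_lt hm] at h2
          exact ⟨hm, h2⟩
        · left
          obtain ⟨c, rfl⟩ : ∃ c, m = a.length + c := ⟨m - a.length, by omega⟩
          rw [upm_rfx_ge (by omega)] at h2
          simp only [decide_eq_true_eq] at h2
          omega
      · rintro (rfl | ⟨h1, h2⟩)
        · refine ⟨by omega, ?_⟩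
          rw [upm_rfx_ge hi]
          simp
        · refine ⟨by omega, ?_⟩
          rw [upm_rfx_lt h1]
          exact h2
    rw [this, Finset.card_insert_of_notMem]
    simp
  · intro i hi j hj hij
    rw [rfx_length]
    unfold pcs
    congr 1
    ext m
    simp only [Finset.mem_filter, Finset.mem_range, Nat.testBit_and, Bool.and_eq_true]
    constructor
    · rintro ⟨h1, h2, h3⟩
      by_cases hm : m < a.length
      · rw [upm_rfx_lt hm] at h2 h3
        exact ⟨hm, h2, h3⟩
      · exfalso
        obtain ⟨c, rfl⟩ : ∃ c, m = a.length + c := ⟨m - a.length, by omega⟩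
        rw [upm_rfx_ge (by omega)] at h2 h3
        simp only [decide_eq_true_eq] at h2 h3
        omega
    · rintro ⟨h1, h2, h3⟩
      refine ⟨by omega, ?_⟩
      rw [upm_rfx_lt h1, upm_rfx_lt h1]
      exact ⟨h2, h3⟩

/-- pairs of consecutive lists: prescribed by `T` up to the index `R`, then by reflection -/
def pairSeq (T : ℕ → List ℕ) (R : ℕ) : ℕ → List ℕ × List ℕ
  | 0 => (T 0, T 1)
  | k + 1 => ((pairSeq T R k).2, if k + 2 ≤ R then T (k + 2) else
      rfx (pairSeq T R k).1.length (pairSeq T R k).2)

/-- the sequence prescribed by `T` up to the index `R`, then by reflection -/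
def sq (T : ℕ → List ℕ) (R k : ℕ) : List ℕ := (pairSeq T R k).1

theorem sq_add_two (T : ℕ → List ℕ) (R k : ℕ) : sq T R (k + 2) =
    if k + 2 ≤ R then T (k + 2) else rfx (sq T R k).length (sq T R (k + 1)) := rfl

theorem sq_eq (T : ℕ → List ℕ) (R k : ℕ) (hR : 1 ≤ R) (hk : k ≤ R) : sq T R k = T k := by
  match k with
  | 0 => rfl
  | 1 => rfl
  | k + 2 => rw [sq_add_two, if_pos hk]

theorem sq_good (T : ℕ → List ℕ) (R : ℕ) (hR : 1 ≤ R) (h0 : T 0 = [0]) (h1 : G 0 (T 0) (T 1))
    (h2 : ∀ k, k + 2 ≤ R → G (T k).length (T (k + 1)) (T (k + 2))) : GoodSeq (sq T R) := by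
  refine ⟨?_, ?_, ?_⟩
  · rw [sq_eq T R 0 hR (by omega), h0]
  · rw [sq_eq T R 0 hR (by omega), sq_eq T R 1 hR hR]
    exact h1
  · intro k
    induction k with
    | zero =>
      by_cases h : 2 ≤ R
      · rw [sq_eq T R 0 hR (by omega), sq_eq T R (0 + 1) hR hR, sq_eq T R (0 + 2) hR h]
        exact h2 0 h
      · rw [sq_add_two, if_neg (by omega), sq_eq T R 0 hR (by omega), sq_eq T R (0 + 1) hR hR]
        exact h1.reflect
    | succ k ih =>
      by_cases h : k + 1 + 2 ≤ R
      · rw [sq_eq T R (k + 1) hR (by omega), sq_eq T R (k + 1 + 1) hR (by omega),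
          sq_eq T R (k + 1 + 2) hR h]
        exact h2 (k + 1) h
      · rw [sq_add_two T R (k + 1), if_neg h]
        exact ih.reflect

/-! ### The checker -/

/-- kernel friendly version of `upm` -/
noncomputable def upmK (i : ℕ) (l : List ℕ) : ℕ :=
  List.rec 0 (fun b _ ih => Nat.add (Nat.land (Nat.shiftRight b i) 1) (Nat.mul 2 ih)) l

theorem upmK_eq (i : ℕ) : ∀ l, upmK i l = upm i l := by
  intro l
  induction l with
  | nil => rfl
  | cons b l ih =>
    have h1 : upmK i (b :: l) = ((b >>> i) &&& 1) + 2 * upmK i l := rfl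
    rw [h1, ih, upm, Nat.and_one_is_mod]

/-- kernel friendly version of `pcs` -/
noncomputable def pcK (f : ℕ) : ℕ → ℕ :=
  Nat.rec (fun _ => 0) (fun _ ih x => cond (Nat.beq x 0) 0
    (Nat.add (Nat.land x 1) (ih (Nat.shiftRight x 1)))) f

theorem pcs_succ (f x : ℕ) : pcs (f + 1) x = x % 2 + pcs f (x / 2) := by
  unfold pcs
  rw [Finset.card_filter, Finset.card_filter, Finset.sum_range_succ', Nat.add_comm]
  congr 1
  · rw [Nat.testBit_zero]
    have := Nat.mod_two_eq_zero_or_one x
    rcases this with h | h <;> simp [h]
  · apply Finset.sum_congr rfl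
    intro j _
    rw [Nat.testBit_succ]

theorem pcK_eq : ∀ f x, pcK f x = pcs f x := by
  intro f
  induction f with
  | zero => intro x; simp [pcK, pcs]
  | succ f ih =>
    intro x
    have h1 : pcK (f + 1) x = cond (Nat.beq x 0) 0 ((x &&& 1) + pcK f (x >>> 1)) := rfl
    rw [h1]
    cases x with
    | zero =>
      have : Nat.beq 0 0 = true := rfl
      rw [this, cond_true]
      simp [pcs]
    | succ x =>
      have : Nat.beq (x + 1) 0 = false := rfl
      rw [this, cond_false, ih, pcs_succ, Nat.and_one_is_mod, Nat.shiftRight_one]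

open DPS in
/-- the list of pairs `(a_i, up_i)` -/
noncomputable def prs (b : List ℕ) (a : List ℕ) : ℕ → List (ℕ × ℕ) :=
  List.rec (fun _ => []) (fun x _ ih i => forceT (upmK i b) fun u => (x, u) :: ih (Nat.succ i)) a

/-- compare one pair with the others -/
noncomputable def ck1 (n N x u : ℕ) (l : List (ℕ × ℕ)) : Bool :=
  List.rec true (fun p _ ih => cond (Nat.beq (pcK N (Nat.land u p.2)) (pcK n (Nat.land x p.1)))
    ih false) l

/-- check all pairs -/
noncomputable def ck2 (n N : ℕ) (l : List (ℕ × ℕ)) : Bool :=
  List.rec true (fun p t ih => cond (Nat.beq (pcK N p.2) (Nat.succ (pcK n p.1)))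
    (cond (ck1 n N p.1 p.2 t) ih false) false) l

/-- check the bounds -/
noncomputable def ck3 (B : ℕ) (l : List ℕ) : Bool :=
  List.rec true (fun x _ ih => cond (Nat.beq x 0) false (cond (Nat.ble (Nat.succ x) B) ih false)) l

noncomputable def ckG (n : ℕ) (a b : List ℕ) : Bool :=
  cond (ck3 (Nat.pow 2 a.length) b) (ck2 n b.length (prs b a 0)) false

theorem prs_cons (b : List ℕ) (x : ℕ) (a : List ℕ) (i : ℕ) :
    prs b (x :: a) i = (x, upm i b) :: prs b a (i + 1) := by
  have : prs b (x :: a) i = DPS.forceT (upmK i b) fun u => (x, u) :: prs b a (Nat.succ i) := rfl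
  rw [this]
  have h2 : ∀ (n : ℕ) (k : ℕ → List (ℕ × ℕ)), DPS.forceT n k = k n := by
    intro n k
    unfold DPS.forceT
    have h3 : ∀ m : ℕ, ∀ k' : ℕ → List (ℕ × ℕ), DPS.force m k' = k' m := by
      intro m k'
      cases m <;> rfl
    rw [h3]
    congr 1
    show (n * 4294967296 + n % 4294967291) / 4294967296 = n
    have := Nat.mod_lt n (show 0 < 4294967291 by norm_num)
    omega
  rw [h2, upmK_eq]

theorem ck1_spec (n N x u : ℕ) (b : List ℕ) : ∀ (a : List ℕ) (i : ℕ),
    ck1 n N x u (prs b a i) = true → ∀ m < a.length,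
      pcs N (u &&& upm (i + m) b) = pcs n (x &&& a.getD m 0) := by
  intro a
  induction a with
  | nil => intro i _ m hm; simp at hm
  | cons y a ih =>
    intro i h m hm
    rw [prs_cons] at h
    have h1 : ck1 n N x u ((y, upm i b) :: prs b a (i + 1)) =
      cond (Nat.beq (pcK N (u &&& upm i b)) (pcK n (x &&& y))) (ck1 n N x u (prs b a (i + 1)))
        false := rfl
    rw [h1] at h
    by_cases h2 : Nat.beq (pcK N (u &&& upm i b)) (pcK n (x &&& y)) = true
    · rw [h2, cond_true] at h
      rw [Nat.beq_eq, pcK_eq, pcK_eq] at h2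
      cases m with
      | zero => simpa using h2
      | succ m =>
        have := ih (i + 1) h m (by simpa using hm)
        rw [List.getD_cons_succ, ← this]
        congr 3
        ring
    · simp only [Bool.not_eq_true] at h2
      rw [h2] at h
      simp at h

theorem ck2_spec (n N : ℕ) (b : List ℕ) : ∀ (a : List ℕ) (i : ℕ),
    ck2 n N (prs b a i) = true → (∀ m < a.length, pcs N (upm (i + m) b) = pcs n (a.getD m 0) + 1) ∧
      ∀ m < a.length, ∀ m' < a.length, m < m' →
        pcs N (upm (i + m) b &&& upm (i + m') b) = pcs n (a.getD m 0 &&& a.getD m' 0) := by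
  intro a
  induction a with
  | nil => intro i _; exact ⟨fun m hm => by simp at hm, fun m hm => by simp at hm⟩
  | cons y a ih =>
    intro i h
    rw [prs_cons] at h
    have h1 : ck2 n N ((y, upm i b) :: prs b a (i + 1)) =
      cond (Nat.beq (pcK N (upm i b)) (pcK n y + 1))
        (cond (ck1 n N y (upm i b) (prs b a (i + 1))) (ck2 n N (prs b a (i + 1))) false)
        false := rfl
    rw [h1] at h
    by_cases h2 : Nat.beq (pcK N (upm i b)) (pcK n y + 1) = true
    · rw [h2, cond_true] at h
      rw [Nat.beq_eq, pcK_eq, pcK_eq] at h2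
      by_cases h3 : ck1 n N y (upm i b) (prs b a (i + 1)) = true
      · rw [h3, cond_true] at h
        have h4 := ck1_spec n N y (upm i b) b a (i + 1) h3
        obtain ⟨h5, h6⟩ := ih (i + 1) h
        refine ⟨?_, ?_⟩
        · intro m hm
          cases m with
          | zero => simpa using h2
          | succ m =>
            have := h5 m (by simpa using hm)
            rw [List.getD_cons_succ, ← this]
            congr 2
            ring
        · intro m hm m' hm' hlt
          cases m' with
          | zero => omega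
          | succ m' =>
            cases m with
            | zero =>
              have := h4 m' (by simpa using hm')
              rw [List.getD_cons_succ, List.getD_cons_zero, ← this, Nat.add_zero]
              congr 3
              ring
            | succ m =>
              have := h6 m (by simpa using hm) m' (by simpa using hm') (by omega)
              rw [List.getD_cons_succ, List.getD_cons_succ, ← this]
              rw [show i + (m + 1) = i + 1 + m by ring, show i + (m' + 1) = i + 1 + m' by ring]
      · simp only [Bool.not_eq_true] at h3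
        rw [h3] at h
        simp at h
    · simp only [Bool.not_eq_true] at h2
      rw [h2] at h
      simp at h

theorem ck3_spec (B : ℕ) : ∀ l : List ℕ, ck3 B l = true → ∀ x ∈ l, x ≠ 0 ∧ x < B := by
  intro l
  induction l with
  | nil => intro _ x hx; simp at hx
  | cons y l ih =>
    intro h x hx
    have h1 : ck3 B (y :: l) = cond (Nat.beq y 0) false
      (cond (Nat.ble (y + 1) B) (ck3 B l) false) := rfl
    rw [h1] at h
    by_cases h2 : Nat.beq y 0 = true
    · rw [h2] at h; simp at h
    · have h2' := h2
      simp only [Bool.not_eq_true] at h2'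
      rw [h2', cond_false] at h
      by_cases h3 : Nat.ble (y + 1) B = true
      · rw [h3, cond_true] at h
        rw [Nat.ble_eq] at h3
        rcases List.mem_cons.1 hx with rfl | hx
        · refine ⟨?_, h3⟩
          rintro rfl
          exact h2 rfl
        · exact ih h x hx
      · simp only [Bool.not_eq_true] at h3
        rw [h3] at h; simp at h

theorem ckG_spec {n : ℕ} {a b : List ℕ} (h : ckG n a b = true) : G n a b := by
  unfold ckG at h
  by_cases h1 : ck3 (Nat.pow 2 a.length) b = true
  · rw [h1, cond_true] at h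
    obtain ⟨h2, h3⟩ := ck2_spec n b.length b a 0 h
    refine ⟨ck3_spec _ b h1, ?_, ?_⟩
    · intro i hi
      have := h2 i hi
      rwa [Nat.zero_add] at this
    · intro i hi j hj hij
      rcases lt_or_gt_of_ne hij with hlt | hlt
      · have := h3 i hi j hj hlt
        rwa [Nat.zero_add, Nat.zero_add] at this
      · have := h3 j hj i hi hlt
        rw [Nat.zero_add, Nat.zero_add] at this
        rw [Nat.and_comm, this, Nat.and_comm]
  · simp only [Bool.not_eq_true] at h1
    rw [h1] at h
    simp at h

end DPC
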