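import Pool.Agent.H9.DP.Search

namespace DPS

set_option maxRecDepth 100000

/-- The search (run by the kernel) shows that there is no extension of size `65`. -/
theorem refuted : refute [1, 2, 3, 5, 7, 11, 15, 23, 32, 46, 65] [0] = true := by decide +kernel

end DPS
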