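import Pool.Agent.H9.DP.Construct

/-!
Differential posets from sequences of lists of masks, and the reflection extension.
-/

namespace DPC

/-- number of binary digits `1` of `x` at the positions `< n` -/
def pcs (n x : ℕ) : ℕ := ((Finset.range n).filter fun j => x.testBit j = true).card

/-- the mask of the entries of `l` containing `i` -/
def upm (i : ℕ) : List ℕ → ℕ
  | [] => 0
  | b :: l => (b >>> i) % 2 + 2 * upm i l

theorem upm_testBit (i : ℕ) : ∀ (l : List ℕ) (j : ℕ),
    (upm i l).testBit j = (l.getD j 0).testBit i := by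
  intro l
  induction l with
  | nil => intro j; simp [upm]
  | cons b l ih =>
    intro j
    have h1 : (b >>> i) % 2 < 2 := Nat.mod_lt _ (by norm_num)
    rw [upm]
    cases j with
    | zero =>
      rw [Nat.testBit_zero, List.getD_cons_zero, Nat.testBit_eq_decide_div_mod_eq,
        Nat.shiftRight_eq_div_pow]
      congr 1
      apply propext
      omega
    | succ j =>
      rw [Nat.testBit_succ, List.getD_cons_succ, ← ih j]
      congr 1
      omega

theorem testBit_getD_lt {l : List ℕ} {j i : ℕ} (h : (l.getD j 0).testBit i = true) :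
    j < l.length := by
  by_contra hcon
  rw [List.getD_eq_default _ _ (by omega)] at h
  simp at h

/-- compatibility of three consecutive ranks -/
structure G (n : ℕ) (a b : List ℕ) : Prop where
  bd : ∀ x ∈ b, x ≠ 0 ∧ x < 2 ^ a.length
  deg : ∀ i < a.length, pcs b.length (upm i b) = pcs n (a.getD i 0) + 1
  com : ∀ i < a.length, ∀ j < a.length, i ≠ j →
    pcs b.length (upm i b &&& upm j b) = pcs n (a.getD i 0 &&& a.getD j 0)

/-- A sequence of lists of masks, each compatible with the next one. -/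
structure GoodSeq (L : ℕ → List ℕ) : Prop where
  zero : L 0 = [0]
  one : G 0 (L 0) (L 1)
  step : ∀ k, G (L k).length (L (k + 1)) (L (k + 2))

theorem GoodSeq.bd {L : ℕ → List ℕ} (h : GoodSeq L) (k : ℕ) :
    ∀ x ∈ L (k + 1), x ≠ 0 ∧ x < 2 ^ (L k).length := by
  cases k with
  | zero => exact h.one.bd
  | succ k => exact (h.step k).bd

/-- covering relation -/
def scov (L : ℕ → List ℕ) (x y : Σ k, Fin (L k).length) : Prop :=
  y.1 = x.1 + 1 ∧ ((L y.1).getD y.2 0).testBit x.2 = true

theorem encard_fiber {L : ℕ → List ℕ} (k : ℕ) (q : ℕ → Prop) [DecidablePred q] :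
    {z : Σ k, Fin (L k).length | z.1 = k ∧ q z.2}.encard
      = ((Finset.range (L k).length).filter q).card := by
  have h1 : {z : Σ k, Fin (L k).length | z.1 = k ∧ q z.2}
      = (fun i : Fin (L k).length => (⟨k, i⟩ : Σ k, Fin (L k).length)) ''
        (((Finset.univ : Finset (Fin (L k).length)).filter
          fun i : Fin (L k).length => q i.1 : Finset (Fin (L k).length)) :
            Set (Fin (L k).length)) := by
    ext ⟨m, i⟩
    simp only [Set.mem_setOf_eq, Finset.coe_filter, Finset.mem_univ, true_and, Set.mem_image]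
    constructor
    · rintro ⟨rfl, h⟩
      exact ⟨i, h, rfl⟩
    · rintro ⟨j, h, h'⟩
      cases h'
      exact ⟨rfl, h⟩
  rw [h1, Function.Injective.encard_image, Set.encard_coe_eq_coe_finsetCard]
  · congr 1
    rw [← Finset.card_map Fin.valEmbedding]
    congr 1
    ext j
    simp only [Finset.mem_map, Finset.mem_filter, Finset.mem_univ, true_and,
      Fin.valEmbedding_apply, Finset.mem_range]
    constructor
    · rintro ⟨i, h, rfl⟩; exact ⟨i.2, h⟩
    · rintro ⟨h, h'⟩; exact ⟨⟨j, h⟩, h', rfl⟩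
  · intro i j hij
    simpa using hij

theorem encard_mask {L : ℕ → List ℕ} (k x : ℕ) :
    {z : Σ k, Fin (L k).length | z.1 = k ∧ x.testBit z.2 = true}.encard
      = pcs (L k).length x := encard_fiber k (fun j => x.testBit j = true)

theorem up_set {L : ℕ → List ℕ} (k : ℕ) (i : Fin (L k).length) :
    {z | scov L ⟨k, i⟩ z} = {z : Σ k, Fin (L k).length | z.1 = k + 1 ∧
      (upm i (L (k + 1))).testBit z.2 = true} := by
  ext ⟨m, j⟩
  simp only [Set.mem_setOf_eq, scov]
  constructor
  · rintro ⟨rfl, h⟩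
    refine ⟨rfl, ?_⟩
    rw [upm_testBit]; exact h
  · rintro ⟨rfl, h⟩
    refine ⟨rfl, ?_⟩
    rw [upm_testBit] at h; exact h

theorem up_set2 {L : ℕ → List ℕ} (k : ℕ) (i j : Fin (L k).length) :
    {z | scov L ⟨k, i⟩ z ∧ scov L ⟨k, j⟩ z} = {z : Σ k, Fin (L k).length | z.1 = k + 1 ∧
      (upm i (L (k + 1)) &&& upm j (L (k + 1))).testBit z.2 = true} := by
  ext ⟨m, j⟩
  simp only [Set.mem_setOf_eq, scov]
  constructor
  · rintro ⟨⟨rfl, h⟩, ⟨_, h'⟩⟩
    refine ⟨rfl, ?_⟩
    rw [Nat.testBit_and, upm_testBit, upm_testBit, Bool.and_eq_true]; exact ⟨h, h'⟩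
  · rintro ⟨rfl, h⟩
    rw [Nat.testBit_and, upm_testBit, upm_testBit, Bool.and_eq_true] at h
    exact ⟨⟨rfl, h.1⟩, ⟨rfl, h.2⟩⟩

theorem low_set {L : ℕ → List ℕ} (k : ℕ) (j : Fin (L (k + 1)).length) :
    {z | scov L z ⟨k + 1, j⟩} = {z : Σ k, Fin (L k).length | z.1 = k ∧
      ((L (k + 1)).getD j 0).testBit z.2 = true} := by
  ext ⟨m, i⟩
  simp only [Set.mem_setOf_eq, scov]
  constructor
  · rintro ⟨h, h'⟩
    have : m = k := by omega
    subst this
    exact ⟨rfl, h'⟩
  · rintro ⟨rfl, h⟩
    exact ⟨rfl, h⟩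

theorem low_set2 {L : ℕ → List ℕ} (k : ℕ) (i j : Fin (L (k + 1)).length) :
    {z | scov L z ⟨k + 1, i⟩ ∧ scov L z ⟨k + 1, j⟩} = {z : Σ k, Fin (L k).length | z.1 = k ∧
      ((L (k + 1)).getD i 0 &&& (L (k + 1)).getD j 0).testBit z.2 = true} := by
  ext ⟨m, i⟩
  simp only [Set.mem_setOf_eq, scov]
  constructor
  · rintro ⟨⟨h, h'⟩, ⟨_, h''⟩⟩
    have : m = k := by omega
    subst this
    refine ⟨rfl, ?_⟩
    rw [Nat.testBit_and, Bool.and_eq_true]
    exact ⟨h', h''⟩
  · rintro ⟨rfl, h⟩
    rw [Nat.testBit_and, Bool.and_eq_true] at h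
    exact ⟨⟨rfl, h.1⟩, ⟨rfl, h.2⟩⟩

theorem low_empty {L : ℕ → List ℕ} (i : Fin (L 0).length) :
    {z | scov L z ⟨0, i⟩} = ∅ := by
  ext z
  simp only [Set.mem_setOf_eq, scov, Set.mem_empty_iff_false, iff_false]
  rintro ⟨h, _⟩
  omega

/-- A good sequence of lists gives a `1`-differential poset. -/
theorem GoodSeq.mem {L : ℕ → List ℕ} (h : GoodSeq L) :
    (fun n => (L n).length) ∈ DifferentialPosets.rankFunctions 1 := by
  have hlen0 : (L 0).length = 1 := by rw [h.zero]; rfl
  refine exists_differential (V := Σ k, Fin (L k).length) (fun x => x.1) (scov L)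
    (fun x y hxy => hxy.1) ?_ ?_ ?_ ?_ ?_ _ ?_
  · intro n
    apply Set.finite_of_encard_eq_coe
    have := encard_fiber (L := L) n (fun _ => True)
    simp only [and_true] at this
    exact this
  · rintro ⟨k, j⟩ hk
    obtain ⟨m, rfl⟩ : ∃ m, k = m + 1 := ⟨k - 1, by simp at hk; omega⟩
    have h1 := h.bd m ((L (m + 1)).getD j 0) (by
      rw [List.getD_eq_getElem _ _ j.2]; exact List.getElem_mem _)
    obtain ⟨i, hi⟩ := Nat.exists_testBit_of_ne_zero h1.1
    have hi2 : i < (L m).length := by
      by_contra hcon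
      rw [Nat.testBit_lt_two_pow (lt_of_lt_of_le h1.2
        (Nat.pow_le_pow_right (by norm_num) (not_lt.1 hcon)))] at hi
      exact absurd hi (by simp)
    exact ⟨⟨m, ⟨i, hi2⟩⟩, rfl, hi⟩
  · refine ⟨⟨0, ⟨0, by omega⟩⟩, rfl, ?_⟩
    rintro ⟨k, i⟩ hk
    simp only at hk
    subst hk
    congr 1
    apply Fin.ext
    have := i.2
    simp only
    omega
  · rintro ⟨k, i⟩ ⟨m, j⟩ hne
    by_cases hkm : k = m
    · subst hkm
      have hij : i ≠ j := by
        rintro rfl
        exact hne rfl
      have hij' : (i : ℕ) ≠ j := fun e => hij (Fin.ext e)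
      cases k with
      | zero =>
        exfalso
        have := i.2
        have := j.2
        omega
      | succ k =>
        rw [up_set2, low_set2, encard_mask, encard_mask]
        have := (h.step k).com i i.2 j j.2 hij'
        rw [this]
    · have h1 : {z | scov L z ⟨k, i⟩ ∧ scov L z ⟨m, j⟩} = ∅ := by
        ext z
        simp only [Set.mem_setOf_eq, scov, Set.mem_empty_iff_false, iff_false]
        rintro ⟨⟨h1, _⟩, ⟨h2, _⟩⟩
        omega
      have h2 : {z | scov L ⟨k, i⟩ z ∧ scov L ⟨m, j⟩ z} = ∅ := by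
        ext z
        simp only [Set.mem_setOf_eq, scov, Set.mem_empty_iff_false, iff_false]
        rintro ⟨⟨h1, _⟩, ⟨h2, _⟩⟩
        omega
      rw [h1, h2]
  · rintro ⟨k, i⟩
    rw [up_set]
    cases k with
    | zero =>
      rw [low_empty, encard_mask]
      have := h.one.deg i i.2
      rw [this]
      simp [pcs]
    | succ k =>
      rw [low_set, encard_mask, encard_mask]
      have := (h.step k).deg i i.2
      rw [this]
      push_cast
      rfl
  · intro n
    have := encard_fiber (L := L) n (fun _ => True)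
    simp only [and_true] at this
    rw [this]
    simp

end DPC
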