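import Pool.Agent.H9.DP.Search

namespace DPS

theorem force_eq {α : Type} (n : ℕ) (k : ℕ → α) : force n k = k n := by
  cases n <;> rfl

theorem forceT_eq {α : Type} (n : ℕ) (k : ℕ → α) : forceT n k = k n := by
  unfold forceT
  rw [force_eq]
  congr 1
  show (n * 4294967296 + n % 4294967291) / 4294967296 = n
  have := Nat.mod_lt n (show 0 < 4294967291 by norm_num)
  omega

theorem lowp_spec {x : ℕ} (h0 : x ≠ 0) (h1 : x < 2 ^ 64) :
    ∃ a < 64, lowp x = 2 ^ a ∧ x.testBit a = true := by
  have hd : Nat.gcd x 18446744073709551616 ∣ 2 ^ 64 := by
    have := Nat.gcd_dvd_right x 18446744073709551616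
    simpa using this
  obtain ⟨a, ha, he⟩ := (Nat.dvd_prime_pow Nat.prime_two).1 hd
  have hx : 2 ^ a ∣ x := by
    rw [← he]; exact Nat.gcd_dvd_left _ _
  have ha' : a < 64 := by
    rcases Nat.lt_or_ge a 64 with h | h
    · exact h
    · have : a = 64 := by omega
      subst this
      exact absurd (Nat.le_of_dvd (Nat.pos_of_ne_zero h0) hx) (by omega)
  refine ⟨a, ha', he, ?_⟩
  rw [Nat.testBit_eq_decide_div_mod_eq]
  simp only [decide_eq_true_eq]
  obtain ⟨y, rfl⟩ := hx
  rw [Nat.mul_div_cancel_left _ (by positivity)]
  by_contra hy
  have hy2 : 2 ∣ y := by omega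
  obtain ⟨z, rfl⟩ := hy2
  have h2 : 2 ^ (a + 1) ∣ Nat.gcd (2 ^ a * (2 * z)) 18446744073709551616 := by
    apply Nat.dvd_gcd
    · exact ⟨z, by ring⟩
    · have : (18446744073709551616 : ℕ) = 2 ^ 64 := by norm_num
      rw [this]
      exact pow_dvd_pow 2 (by omega)
  rw [he] at h2
  exact absurd (Nat.le_of_dvd (by positivity) h2) (by
    rw [pow_succ]; have : 0 < 2 ^ a := by positivity
    omega)

theorem dig_eq (N a : ℕ) : dig N (2 ^ a) = N / 2 ^ (8 * a) % 256 := by
  unfold dig
  show (N / ((2 ^ a) ^ 8)) &&& 255 = _
  have : (255 : ℕ) = 2 ^ 8 - 1 := by norm_num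
  rw [this, Nat.and_two_pow_sub_one_eq_mod, ← pow_mul, Nat.mul_comm a 8]

theorem rowOf_testBit (Rw a j : ℕ) :
    (rowOf Rw (2 ^ a)).testBit j = (decide (j < 64) && Rw.testBit (64 * a + j)) := by
  unfold rowOf
  show ((Rw / ((2 ^ a) ^ 64)) &&& 18446744073709551615).testBit j = _
  have : (18446744073709551615 : ℕ) = 2 ^ 64 - 1 := by norm_num
  rw [this, Nat.and_two_pow_sub_one_eq_mod, ← pow_mul, Nat.mul_comm a 64, Nat.testBit_mod_two_pow,
    Nat.testBit_div_two_pow, Nat.add_comm]


/-- number of binary digits `1` at the positions below `64` -/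
def pc (B : ℕ) : ℕ := ((Finset.range 64).filter fun j => B.testBit j = true).card

theorem clq_succ (Rw : ℕ) (k : ℕ → ℕ → Bool) (f blk s cand : ℕ) :
    clq Rw k (f + 1) blk s cand = cond (Nat.beq cand 0) (k blk s)
      (cond (clq Rw k f blk s (cand ^^^ lowp cand))
        (clq Rw k f (blk ||| lowp cand) (s + 1) ((cand ^^^ lowp cand) &&& rowOf Rw (lowp cand)))
        false) := by
  have : clq Rw k (f + 1) blk s cand = cond (Nat.beq cand 0) (k blk s)
        (forceT (lowp cand) fun p => forceT (Nat.xor cand p) fun c' =>
         cond (clq Rw k f blk s c')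
          (forceT (Nat.lor blk p) fun b' => forceT (Nat.land c' (rowOf Rw p)) fun c'' =>
            clq Rw k f b' (Nat.succ s) c'')
          false) := rfl
  rw [this]
  simp only [forceT_eq]
  rfl

theorem pc_or_two_pow {blk a : ℕ} (ha : a < 64) (h : blk.testBit a = false) :
    pc (blk ||| 2 ^ a) = pc blk + 1 := by
  unfold pc
  have : ((Finset.range 64).filter fun j => (blk ||| 2 ^ a).testBit j = true)
      = insert a ((Finset.range 64).filter fun j => blk.testBit j = true) := by
    ext j
    simp only [Finset.mem_filter, Finset.mem_range, Finset.mem_insert, Nat.testBit_or,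
      Nat.testBit_two_pow, Bool.or_eq_true, decide_eq_true_eq]
    constructor
    · rintro ⟨h1, h2 | h2⟩
      · exact Or.inr ⟨h1, h2⟩
      · exact Or.inl h2.symm
    · rintro (rfl | ⟨h1, h2⟩)
      · exact ⟨ha, Or.inr rfl⟩
      · exact ⟨h1, Or.inl h2⟩
  rw [this, Finset.card_insert_of_notMem]
  simp [h]

theorem clq_sound (Rw : ℕ) (k : ℕ → ℕ → Bool) : ∀ (fuel blk s cand : ℕ),
    clq Rw k fuel blk s cand = true → cand < 2 ^ 64 → pc blk = s →
    (∀ i, cand.testBit i = true → blk.testBit i = false) →
    ∀ B, (∀ i, blk.testBit i = true → B.testBit i = true) →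
      (∀ i, B.testBit i = true → blk.testBit i = true ∨ cand.testBit i = true) →
      (∀ i j, i ≠ j → B.testBit i = true → B.testBit j = true →
        Rw.testBit (64 * i + j) = true) →
      k B (pc B) = true := by
  intro fuel
  induction fuel with
  | zero => intro blk s cand h; exact absurd h (by simp [clq])
  | succ f ih =>
    intro blk s cand h hc hs hd B hB1 hB2 hB3
    rw [clq_succ] at h
    by_cases h0 : cand = 0
    · subst h0
      have hb : B = blk := by
        apply Nat.eq_of_testBit_eq
        intro i
        by_cases hi : B.testBit i = true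
        · rcases hB2 i hi with h1 | h1
          · rw [hi, h1]
          · simp at h1
        · by_cases hj : blk.testBit i = true
          · exact absurd (hB1 i hj) hi
          · simp only [Bool.not_eq_true] at hi hj
            rw [hi, hj]
      have h2 : Nat.beq 0 0 = true := rfl
      rw [h2, cond_true] at h
      rw [hb, hs]; exact h
    · have h2 : Nat.beq cand 0 = false := by
        cases cand with
        | zero => exact absurd rfl h0
        | succ n => rfl
      rw [h2, cond_false] at h
      obtain ⟨a, ha, hl, hat⟩ := lowp_spec h0 hc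
      rw [hl] at h
      have hx : clq Rw k f blk s (cand ^^^ 2 ^ a) = true := by
        by_contra hcon
        simp only [Bool.not_eq_true] at hcon
        rw [hcon] at h
        simp at h
      rw [hx, cond_true] at h
      have hx1 : ∀ i, (cand ^^^ 2 ^ a).testBit i = true ↔ (cand.testBit i = true ∧ i ≠ a) := by
        intro i
        rw [Nat.testBit_xor, Nat.testBit_two_pow]
        by_cases hia : a = i
        · subst hia; simp [hat]
        · have : i ≠ a := fun h => hia h.symm
          simp [hia, this]
      by_cases haB : B.testBit a = true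
      · refine ih _ _ _ h ?_ ?_ ?_ B ?_ ?_ hB3
        · exact lt_of_le_of_lt Nat.and_le_left (Nat.xor_lt_two_pow hc
            (Nat.pow_lt_pow_right (by norm_num) ha))
        · rw [pc_or_two_pow ha (hd a hat), hs]
        · intro i hi
          rw [Nat.testBit_and, Bool.and_eq_true] at hi
          have h3 := (hx1 i).1 hi.1
          rw [Nat.testBit_or, Nat.testBit_two_pow]
          have : a ≠ i := fun h => h3.2 h.symm
          simp [hd i h3.1, this]
        · intro i hi
          rw [Nat.testBit_or, Nat.testBit_two_pow] at hi
          simp only [Bool.or_eq_true, decide_eq_true_eq] at hi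
          rcases hi with hi | rfl
          · exact hB1 i hi
          · exact haB
        · intro i hi
          by_cases hia : i = a
          · subst hia
            left
            rw [Nat.testBit_or, Nat.testBit_two_pow]
            simp
          · rcases hB2 i hi with h3 | h3
            · left
              rw [Nat.testBit_or, h3]; simp
            · right
              rw [Nat.testBit_and, rowOf_testBit, hB3 a i (fun h => hia h.symm) haB hi,
                (hx1 i).2 ⟨h3, hia⟩]
              have : i < 64 := by
                by_contra hcon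
                have := Nat.testBit_lt_two_pow (lt_of_lt_of_le hc
                  (Nat.pow_le_pow_right (by norm_num : 0 < 2) (not_lt.1 hcon)))
                rw [this] at h3
                exact absurd h3 (by simp)
              simp [this]
      · refine ih _ _ _ hx ?_ hs ?_ B hB1 ?_ hB3
        · exact Nat.xor_lt_two_pow hc (Nat.pow_lt_pow_right (by norm_num) ha)
        · intro i hi
          exact hd i ((hx1 i).1 hi).1
        · intro i hi
          rcases hB2 i hi with h3 | h3
          · exact Or.inl h3
          · right
            refine (hx1 i).2 ⟨h3, ?_⟩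
            rintro rfl
            exact haB hi

theorem D_sub (N y a b : ℕ) (hy : y ≤ N / 2 ^ (8 * a) % 256) :
    (N - y * 2 ^ (8 * a)) / 2 ^ (8 * b) % 256
      = if b = a then N / 2 ^ (8 * a) % 256 - y else N / 2 ^ (8 * b) % 256 := by
  rcases lt_trichotomy b a with h | h | h
  · rw [if_neg (by omega)]
    obtain ⟨c, rfl⟩ : ∃ c, a = b + 1 + c := ⟨a - b - 1, by omega⟩
    have e : 2 ^ (8 * (b + 1 + c)) = 2 ^ (8 * b) * (256 * 2 ^ (8 * c)) := by
      rw [show 8 * (b + 1 + c) = 8 * b + 8 + 8 * c by ring, pow_add, pow_add]
      norm_num
      ring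
    have hle : y * 2 ^ (8 * (b + 1 + c)) ≤ N := by
      have h1 : y ≤ N / 2 ^ (8 * (b + 1 + c)) := le_trans hy (Nat.mod_le _ _)
      exact (Nat.le_div_iff_mul_le (by positivity)).1 h1
    rw [e] at hle ⊢
    have e2 : y * (2 ^ (8 * b) * (256 * 2 ^ (8 * c))) = 2 ^ (8 * b) * (256 * (y * 2 ^ (8 * c))) := by
      ring
    rw [e2] at hle ⊢
    rw [Nat.sub_mul_div_of_le _ _ _ hle]
    have h3 : 256 * (y * 2 ^ (8 * c)) ≤ N / 2 ^ (8 * b) := by
      rw [Nat.le_div_iff_mul_le (by positivity)]
      rw [Nat.mul_comm]; exact hle
    generalize N / 2 ^ (8 * b) = M at h3 ⊢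
    generalize y * 2 ^ (8 * c) = z at h3 ⊢
    omega
  · subst h
    rw [if_pos rfl]
    have hle : 2 ^ (8 * b) * y ≤ N := by
      have h1 : y ≤ N / 2 ^ (8 * b) := le_trans hy (Nat.mod_le _ _)
      rw [Nat.mul_comm]
      exact (Nat.le_div_iff_mul_le (by positivity)).1 h1
    rw [Nat.mul_comm y, Nat.sub_mul_div_of_le _ _ _ hle]
    generalize N / 2 ^ (8 * b) = M at hy ⊢
    omega
  · rw [if_neg (by omega)]
    obtain ⟨c, rfl⟩ : ∃ c, b = a + (1 + c) := ⟨b - a - 1, by omega⟩
    have hle : 2 ^ (8 * a) * y ≤ N := by
      have h1 : y ≤ N / 2 ^ (8 * a) := le_trans hy (Nat.mod_le _ _)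
      rw [Nat.mul_comm]
      exact (Nat.le_div_iff_mul_le (by positivity)).1 h1
    have e : 2 ^ (8 * (a + (1 + c))) = 2 ^ (8 * a) * (256 * 2 ^ (8 * c)) := by
      rw [show 8 * (a + (1 + c)) = 8 * a + (8 + 8 * c) by ring, pow_add, pow_add]
      norm_num
    rw [e]
    simp only [← Nat.div_div_eq_div_mul]
    rw [Nat.mul_comm y, Nat.sub_mul_div_of_le _ _ _ hle]
    generalize N / 2 ^ (8 * a) = M at hy ⊢
    have : (M - y) / 256 = M / 256 := by omega
    rw [this]


theorem upd_zero (B t : ℕ) (k : ℕ → ℕ → ℕ → ℕ → Bool) (m Rw CD W T : ℕ) :
    upd B t k 0 m Rw CD W T = cond (Nat.beq m 0) (k Rw CD W T) false := rfl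

theorem upd_succ (B t : ℕ) (k : ℕ → ℕ → ℕ → ℕ → Bool) (f m Rw CD W T : ℕ) :
    ∃ T', upd B t k (f + 1) m Rw CD W T = cond (Nat.beq m 0) (k Rw CD W T)
      (cond (Nat.ble (16 + t) (dig CD (lowp m)))
        (upd B t k f (m ^^^ lowp m) (Rw ^^^ ((B ^^^ lowp m) * (lowp m) ^ 64))
          (CD - (16 + t) * (lowp m) ^ 8)
          (W + tb (dig CD (lowp m) - (16 + t)) - tb (dig CD (lowp m))) T')
        true) := by
  refine ⟨?_, ?_⟩
  swap
  · have : upd B t k (f + 1) m Rw CD W T = cond (Nat.beq m 0) (k Rw CD W T)
        (forceT (lowp m) fun p => forceT (dig CD p) fun x => cond (Nat.ble (Nat.add 16 t) x)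
          (forceT (Nat.xor m p) fun m' =>
            forceT (Nat.xor Rw (Nat.mul (Nat.xor B p) (Nat.pow p 64))) fun Rw' =>
            forceT (Nat.sub CD (Nat.mul (Nat.add 16 t) (Nat.pow p 8))) fun CD' =>
            forceT (Nat.sub (Nat.add W (tb (Nat.sub x (Nat.add 16 t)))) (tb x)) fun W' =>
            forceT (Nat.xor (Nat.xor T
              (cond (Nat.beq (Nat.land x 15) 0) 0
                (Nat.shiftLeft p (Nat.mul 64 (sl x)))))
              (cond (Nat.beq (Nat.land x 15) t) 0
                (Nat.shiftLeft p (Nat.mul 64 (sl (Nat.sub x (Nat.add 16 t))))))) fun T' =>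
            upd B t k f m' Rw' CD' W' T')
          true) := rfl
    rw [this]
    simp only [forceT_eq]
    rfl

theorem beq_zero_false {m : ℕ} (h : m ≠ 0) : Nat.beq m 0 = false := by
  cases m with
  | zero => exact absurd rfl h
  | succ n => rfl

theorem upd_sound (n B t : ℕ) (k : ℕ → ℕ → ℕ → ℕ → Bool) (hB : B < 2 ^ 64) :
    ∀ (f m Rw CD W T : ℕ), upd B t k f m Rw CD W T = true → m < 2 ^ 64 →
    (∀ i, m.testBit i = true → B.testBit i = true ∧ i < n) →
    (∀ i, m.testBit i = true → 16 + t ≤ CD / 2 ^ (8 * i) % 256) →
    W = ∑ i ∈ Finset.range n, tb (CD / 2 ^ (8 * i) % 256) →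
    ∃ Rw' CD' W' T', k Rw' CD' W' T' = true ∧
      (∀ i j, i < 64 → j < 64 → Rw'.testBit (64 * i + j) =
        (Rw.testBit (64 * i + j) ^^ (m.testBit i && (B.testBit j && decide (j ≠ i))))) ∧
      (∀ i, CD' / 2 ^ (8 * i) % 256 =
        CD / 2 ^ (8 * i) % 256 - if m.testBit i = true then 16 + t else 0) ∧
      W' = ∑ i ∈ Finset.range n, tb (CD' / 2 ^ (8 * i) % 256) := by
  have key : ∀ (m Rw CD W T : ℕ), m = 0 → k Rw CD W T = true →
    W = ∑ i ∈ Finset.range n, tb (CD / 2 ^ (8 * i) % 256) →
    ∃ Rw' CD' W' T', k Rw' CD' W' T' = true ∧
      (∀ i j, i < 64 → j < 64 → Rw'.testBit (64 * i + j) =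
        (Rw.testBit (64 * i + j) ^^ (m.testBit i && (B.testBit j && decide (j ≠ i))))) ∧
      (∀ i, CD' / 2 ^ (8 * i) % 256 =
        CD / 2 ^ (8 * i) % 256 - if m.testBit i = true then 16 + t else 0) ∧
      W' = ∑ i ∈ Finset.range n, tb (CD' / 2 ^ (8 * i) % 256) := by
    intro m Rw CD W T h0 hk hW
    subst h0
    exact ⟨Rw, CD, W, T, hk, by simp, by simp, hW⟩
  intro f
  induction f with
  | zero =>
    intro m Rw CD W T h hm hm1 hm2 hW
    rw [upd_zero] at h
    by_cases h0 : m = 0
    · subst h0
      exact key 0 Rw CD W T rfl h hW
    · rw [beq_zero_false h0] at h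
      simp at h
  | succ f ih =>
    intro m Rw CD W T h hm hm1 hm2 hW
    obtain ⟨T1, hT1⟩ := upd_succ B t k f m Rw CD W T
    rw [hT1] at h
    by_cases h0 : m = 0
    · subst h0
      exact key 0 Rw CD W T rfl h hW
    · rw [beq_zero_false h0, cond_false] at h
      obtain ⟨a, ha, hl, hat⟩ := lowp_spec h0 hm
      rw [hl, dig_eq] at h
      have hx := hm2 a hat
      have hble : Nat.ble (16 + t) (CD / 2 ^ (8 * a) % 256) = true := by
        rw [Nat.ble_eq]; exact hx
      rw [hble, cond_true] at h
      have hpow : (2 ^ a) ^ 8 = 2 ^ (8 * a) := by rw [← pow_mul, Nat.mul_comm]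
      have hpow2 : (2 ^ a) ^ 64 = 2 ^ (64 * a) := by rw [← pow_mul, Nat.mul_comm]
      rw [hpow, hpow2] at h
      have hm' : ∀ i, (m ^^^ 2 ^ a).testBit i = true ↔ (m.testBit i = true ∧ i ≠ a) := by
        intro i
        rw [Nat.testBit_xor, Nat.testBit_two_pow]
        by_cases hia : a = i
        · subst hia; simp [hat]
        · have : i ≠ a := fun h => hia h.symm
          simp [hia, this]
      obtain ⟨Rw', CD', W', T', hk, hR, hC, hW'⟩ := ih _ _ _ _ _ h
        (Nat.xor_lt_two_pow hm (Nat.pow_lt_pow_right (by norm_num) ha))
        (fun i hi => hm1 i ((hm' i).1 hi).1)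
        (fun i hi => by
          rw [D_sub _ _ _ _ hx, if_neg ((hm' i).1 hi).2]
          exact hm2 i ((hm' i).1 hi).1)
        (by
          have han : a ∈ Finset.range n := Finset.mem_range.2 (hm1 a hat).2
          rw [hW, ← Finset.add_sum_erase _ _ han, ← Finset.add_sum_erase _ _ han,
            D_sub _ _ _ _ hx, if_pos rfl]
          have : ∑ x ∈ (Finset.range n).erase a,
              tb ((CD - (16 + t) * 2 ^ (8 * a)) / 2 ^ (8 * x) % 256)
              = ∑ x ∈ (Finset.range n).erase a, tb (CD / 2 ^ (8 * x) % 256) := by
            apply Finset.sum_congr rfl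
            intro x hx2
            rw [D_sub _ _ _ _ hx, if_neg (Finset.ne_of_mem_erase hx2)]
          rw [this]
          omega)
      refine ⟨Rw', CD', W', T', hk, ?_, ?_, hW'⟩
      · intro i j hi hj
        rw [hR i j hi hj, Nat.testBit_xor, Nat.testBit_mul_two_pow]
        by_cases hia : i = a
        · subst hia
          have e1 : (m ^^^ 2 ^ i).testBit i = false := by
            by_contra hcon
            exact ((hm' i).1 (by simpa using hcon)).2 rfl
          have e2 : 64 * i + j - 64 * i = j := by omega
          rw [e1, e2, hat, Nat.testBit_xor, Nat.testBit_two_pow]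
          by_cases hij : i = j
          · subst hij
            simp [(hm1 i hat).1]
          · have : j ≠ i := fun h => hij h.symm
            simp [hij, this]
        · have e1 : (m ^^^ 2 ^ a).testBit i = m.testBit i := by
            rw [Nat.testBit_xor, Nat.testBit_two_pow]
            have : a ≠ i := fun h => hia h.symm
            simp [this]
          have e3 : (decide (64 * a ≤ 64 * i + j) && (B ^^^ 2 ^ a).testBit (64 * i + j - 64 * a))
              = false := by
            rcases lt_or_gt_of_ne hia with h5 | h5
            · have : ¬ (64 * a ≤ 64 * i + j) := by omega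
              simp [this]
            · have : 64 ≤ 64 * i + j - 64 * a := by omega
              have hlt : (B ^^^ 2 ^ a) < 2 ^ 64 :=
                Nat.xor_lt_two_pow hB (Nat.pow_lt_pow_right (by norm_num) ha)
              rw [Nat.testBit_lt_two_pow (lt_of_lt_of_le hlt
                (Nat.pow_le_pow_right (by norm_num) this))]
              simp
          rw [e1, e3]
          simp
      · intro i
        rw [hC i, D_sub _ _ _ _ hx]
        by_cases hia : i = a
        · subst hia
          have e1 : ¬ ((m ^^^ 2 ^ i).testBit i = true) := fun hcon => ((hm' i).1 hcon).2 rfl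
          rw [if_pos rfl, if_neg e1, if_pos hat]
          omega
        · rw [if_neg hia]
          have e1 : ((m ^^^ 2 ^ a).testBit i = true) ↔ (m.testBit i = true) := by
            rw [hm' i]; simp [hia]
          simp only [e1]


/-! ### Counting functions of multisets of masks -/

/-- number of masks containing `i` -/
def cnt (R : Multiset ℕ) (i : ℕ) : ℕ := (R.map fun B => if B.testBit i = true then 1 else 0).sum
/-- sum of `pc B - 1` over the masks containing `i` -/
def dg (R : Multiset ℕ) (i : ℕ) : ℕ :=
  (R.map fun B => if B.testBit i = true then pc B - 1 else 0).sum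
/-- number of masks containing `i` and `j` -/
def pr (R : Multiset ℕ) (i j : ℕ) : ℕ :=
  (R.map fun B => if B.testBit i = true ∧ B.testBit j = true then 1 else 0).sum

theorem cnt_cons (B : ℕ) (R : Multiset ℕ) (i : ℕ) :
    cnt (B ::ₘ R) i = (if B.testBit i = true then 1 else 0) + cnt R i := by
  simp [cnt]
theorem dg_cons (B : ℕ) (R : Multiset ℕ) (i : ℕ) :
    dg (B ::ₘ R) i = (if B.testBit i = true then pc B - 1 else 0) + dg R i := by
  simp [dg]
theorem pr_cons (B : ℕ) (R : Multiset ℕ) (i j : ℕ) :
    pr (B ::ₘ R) i j = (if B.testBit i = true ∧ B.testBit j = true then 1 else 0) + pr R i j := by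
  simp [pr]

theorem exists_of_pr_pos {R : Multiset ℕ} {i j : ℕ} (h : 0 < pr R i j) :
    ∃ B ∈ R, B.testBit i = true ∧ B.testBit j = true := by
  induction R using Multiset.induction_on with
  | empty => simp [pr] at h
  | cons B R ih =>
    rw [pr_cons] at h
    by_cases hB : B.testBit i = true ∧ B.testBit j = true
    · exact ⟨B, Multiset.mem_cons_self _ _, hB⟩
    · rw [if_neg hB, zero_add] at h
      obtain ⟨B', h1, h2⟩ := ih h
      exact ⟨B', Multiset.mem_cons_of_mem h1, h2⟩

theorem tb_table : ∀ x < 256, (x / 16 = 0 ∧ 0 < x % 16) ∨ tb x = 0 ∨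
    tb x + 30 * (x % 16) ≤ 60 * (x / 16) ∨ tb x + 10 * (x % 16) ≤ 40 * (x / 16) ∨
    tb x + 5 * (x % 16) ≤ 30 * (x / 16) ∨ tb x + 3 * (x % 16) ≤ 24 * (x / 16) ∨
    tb x + 2 * (x % 16) ≤ 20 * (x / 16) := by
  decide +kernel

/-- the total share `60 / pc B` of the masks containing `i` -/
noncomputable def shr (R : Multiset ℕ) (i : ℕ) : ℚ :=
  (R.map fun B => if B.testBit i = true then (60 : ℚ) / pc B else 0).sum

theorem shr_cons (B : ℕ) (R : Multiset ℕ) (i : ℕ) :
    shr (B ::ₘ R) i = (if B.testBit i = true then (60 : ℚ) / pc B else 0) + shr R i := by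
  simp [shr]

theorem pc_pos {B i : ℕ} (hi : i < 64) (h : B.testBit i = true) : 0 < pc B := by
  unfold pc
  apply Finset.card_pos.2
  exact ⟨i, by simp [hi, h]⟩

theorem share_ineq (A C : ℚ) (hAC : ∀ s : ℕ, 0 < s → A - C * (s - 1) ≤ 60 / s) (R : Multiset ℕ)
    (i : ℕ) (hi : i < 64) : A * cnt R i - C * dg R i ≤ shr R i := by
  induction R using Multiset.induction_on with
  | empty => simp [cnt, dg, shr]
  | cons B R ih =>
    rw [cnt_cons, dg_cons, shr_cons]
    by_cases hB : B.testBit i = true
    · simp only [hB, if_true]
      have h1 := pc_pos hi hB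
      have h2 := hAC (pc B) h1
      push_cast [Nat.cast_sub (show 1 ≤ pc B from h1)]
      linarith
    · rw [if_neg hB, if_neg hB, if_neg hB]
      push_cast
      linarith

theorem hAC_of (q : ℕ) (c A C : ℚ) (hc : 0 ≤ c) (hA : A = c * (2 * q)) (hC : C = c)
    (h60 : c * (q * (q + 1)) = 60) (s : ℕ) (hs : 0 < s) : A - C * (s - 1) ≤ 60 / s := by
  have hs' : (0 : ℚ) < s := by exact_mod_cast hs
  rw [le_div_iff₀ hs', hA, hC, ← h60]
  have : 0 ≤ c * (((s : ℚ) - q) * (s - (q + 1))) := by
    apply mul_nonneg hc
    rcases Nat.lt_or_ge q s with h | h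
    · have h1 : (q : ℚ) + 1 ≤ s := by exact_mod_cast h
      apply mul_nonneg <;> linarith
    · have h1 : (s : ℚ) ≤ q := by exact_mod_cast h
      apply mul_nonneg_of_nonpos_of_nonpos <;> linarith
  nlinarith [this]

theorem tb_le_shr (R : Multiset ℕ) (i x : ℕ) (hi : i < 64) (hx : x < 256)
    (hxe : x = 16 * cnt R i + dg R i) (hd : dg R i < 16) : (tb x : ℚ) ≤ shr R i := by
  have h1 : x / 16 = cnt R i := by omega
  have h2 : x % 16 = dg R i := by omega
  have hnn : 0 ≤ shr R i := by
    unfold shr
    apply Multiset.sum_nonneg
    intro y hy
    obtain ⟨B, _, rfl⟩ := Multiset.mem_map.1 hy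
    split_ifs
    · positivity
    · exact le_refl _
  have h0 : cnt R i = 0 → dg R i = 0 := by
    intro h
    unfold cnt at h
    unfold dg
    rw [Multiset.sum_eq_zero_iff] at h ⊢
    intro y hy
    obtain ⟨B, hB, rfl⟩ := Multiset.mem_map.1 hy
    have := h _ (Multiset.mem_map.2 ⟨B, hB, rfl⟩)
    by_cases hb : B.testBit i = true
    · simp [hb] at this
    · simp [hb]
  rcases tb_table x hx with h | h | h | h | h | h | h
  · rw [h1, h2] at h
    have := h0 h.1
    omega
  · rw [h]; simpa using hnn
  all_goals rw [h1, h2] at h
  · have h3 := share_ineq 60 30 (hAC_of 1 30 60 30 (by norm_num) (by norm_num) rfl (by norm_num))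
      R i hi
    have h4 : (tb x : ℚ) + 30 * (dg R i) ≤ 60 * cnt R i := by exact_mod_cast h
    linarith
  · have h3 := share_ineq 40 10 (hAC_of 2 10 40 10 (by norm_num) (by norm_num) rfl (by norm_num))
      R i hi
    have h4 : (tb x : ℚ) + 10 * (dg R i) ≤ 40 * cnt R i := by exact_mod_cast h
    linarith
  · have h3 := share_ineq 30 5 (hAC_of 3 5 30 5 (by norm_num) (by norm_num) rfl (by norm_num))
      R i hi
    have h4 : (tb x : ℚ) + 5 * (dg R i) ≤ 30 * cnt R i := by exact_mod_cast h
    linarith
  · have h3 := share_ineq 24 3 (hAC_of 4 3 24 3 (by norm_num) (by norm_num) rfl (by norm_num))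
      R i hi
    have h4 : (tb x : ℚ) + 3 * (dg R i) ≤ 24 * cnt R i := by exact_mod_cast h
    linarith
  · have h3 := share_ineq 20 2 (hAC_of 5 2 20 2 (by norm_num) (by norm_num) rfl (by norm_num))
      R i hi
    have h4 : (tb x : ℚ) + 2 * (dg R i) ≤ 20 * cnt R i := by exact_mod_cast h
    linarith

theorem sum_shr (n : ℕ) (hn : n ≤ 64) (R : Multiset ℕ) (hR : ∀ B ∈ R, B ≠ 0 ∧ B < 2 ^ n) :
    ∑ i ∈ Finset.range n, shr R i = 60 * (Multiset.card R : ℚ) := by
  induction R using Multiset.induction_on with
  | empty => simp [shr]
  | cons B R ih =>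
    have ih' := ih (fun B' h => hR B' (Multiset.mem_cons_of_mem h))
    obtain ⟨h0, h1⟩ := hR B (Multiset.mem_cons_self _ _)
    simp only [shr_cons]
    rw [Finset.sum_add_distrib, ih', Multiset.card_cons]
    push_cast
    have hlt : ∀ j, B.testBit j = true → j < n := by
      intro j hj
      by_contra hcon
      have := Nat.testBit_lt_two_pow (lt_of_lt_of_le h1
        (Nat.pow_le_pow_right (by norm_num : 0 < 2) (not_lt.1 hcon)))
      rw [this] at hj
      exact absurd hj (by simp)
    have hpc : pc B = ((Finset.range n).filter fun j => B.testBit j = true).card := by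
      unfold pc
      congr 1
      ext j
      simp only [Finset.mem_filter, Finset.mem_range]
      constructor
      · rintro ⟨_, h⟩; exact ⟨hlt j h, h⟩
      · rintro ⟨h, h'⟩; exact ⟨by omega, h'⟩
    have hpos : 0 < pc B := by
      obtain ⟨j, hj⟩ := Nat.exists_testBit_of_ne_zero h0
      exact pc_pos (lt_of_lt_of_le (hlt j hj) hn) hj
    rw [← Finset.sum_filter, Finset.sum_const, ← hpc, nsmul_eq_mul]
    have : (pc B : ℚ) ≠ 0 := by
      have : (0 : ℚ) < pc B := by exact_mod_cast hpos
      exact this.ne'
    field_simp
    ring

theorem bound (n : ℕ) (hn : n ≤ 64) (R : Multiset ℕ) (hR : ∀ B ∈ R, B ≠ 0 ∧ B < 2 ^ n)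
    (x : ℕ → ℕ) (hx : ∀ i < n, x i < 256 ∧ x i = 16 * cnt R i + dg R i ∧ dg R i < 16) :
    ∑ i ∈ Finset.range n, tb (x i) ≤ 60 * Multiset.card R := by
  have h1 : (∑ i ∈ Finset.range n, (tb (x i) : ℚ)) ≤ ∑ i ∈ Finset.range n, shr R i := by
    apply Finset.sum_le_sum
    intro i hi
    have hi' := Finset.mem_range.1 hi
    obtain ⟨h2, h3, h4⟩ := hx i hi'
    exact tb_le_shr R i (x i) (lt_of_lt_of_le hi' hn) h2 h3 h4
  rw [sum_shr n hn R hR] at h1
  exact_mod_cast h1


/-! ### The search -/

theorem gcd_spec {T : ℕ} (h0 : T ≠ 0) :
    ∃ a < 64, Nat.mod (Nat.gcd T 104438888141315250669175271071662438257996424904738378038423348328395390797155745684882681193499755834089010671443926283798757343818579360726323608785136527794595697654370999834036159013438371831442807001185594622637631883939771274567233468434458661749680790870580370407128404874011860911446797778359802900668693897688178778594690563019026094059957945343282346930302669644305902501597239986771421554169383555988529148631823791443449673408781187263949647510018904134900841706167509366833385055103297208826955076998361636941193301521379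6825837188091833656751221318492846368125550225998300412344784862595674492194617023806505913245610825731835380087608622102834270197698202313169017678006675195485079921636419370285375124784014907159135459982790513399611551794271106831134090584272884279791554849782954323534517065223269061394905987693002122963395687782878948440616007412945674919823050571642377154816321380631045902916136926708342856440730447899971901781465763473223850267253059899795996090799469201774624817718449867455659250178329070473119433165550807568221846571746373296884912819520317457002440926616910874148385078411929804522981857338977648103126085903001302413467189726673216491511131602920781738033436090243804708340403154190336) 18446744073709551615 = 2 ^ a := by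
  have hlit : (1044388881413152506691752710716624382579964249047383780384233483283953907971557456848826811934997558340890106714439262837987573438185793607263236087851365277945956976543709998340361590134383718314428070011855946226376318839397712745672334684344586617496807908705803704071284048740118609114467977783598029006686938976881787785946905630190260940599579453432823469303026696443059025015972399867714215541693835559885291486318237914434496734087811872639496475100189041349008417061675093668333850551032972088269550769983616369411933015213796825837188091833656751221318492846368125550225998300412344784862595674492194617023806505913245610825731835380087608622102834270197698202313169017678006675195485079921636419370285375124784014907159135459982790513399611551794271106831134090584272884279791554849782954323534517065223269061394905987693002122963395687782878948440616007412945674919823050571642377154816321380631045902916136926708342856440730447899971901781465763473223850267253059899795996090799469201774624817718449867455659250178329070473119433165550807568221846571746373296884912819520317457002440926616910874148385078411929804522981857338977648103126085903001302413467189726673216491511131602920781738033436090243804708340403154190336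 : ℕ) = 2 ^ 4096 := by decide +kernel
  rw [hlit]
  obtain ⟨a, ha, he⟩ := (Nat.dvd_prime_pow Nat.prime_two).1 (Nat.gcd_dvd_right T (2 ^ 4096))
  rw [he]
  refine ⟨a % 64, Nat.mod_lt _ (by norm_num), ?_⟩
  show 2 ^ a % 18446744073709551615 = 2 ^ (a % 64)
  have h1 : 2 ^ a = (2 ^ 64) ^ (a / 64) * 2 ^ (a % 64) := by
    rw [← pow_mul, ← pow_add, Nat.div_add_mod]
  have h2 : (2 ^ 64) ^ (a / 64) * 2 ^ (a % 64) ≡ 1 ^ (a / 64) * 2 ^ (a % 64)
      [MOD 18446744073709551615] := by
    apply Nat.ModEq.mul_right
    apply Nat.ModEq.pow
    show 2 ^ 64 % 18446744073709551615 = 1 % 18446744073709551615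
    norm_num
  rw [h1]
  rw [one_pow, one_mul] at h2
  have h3 : 2 ^ (a % 64) % 18446744073709551615 = 2 ^ (a % 64) := by
    apply Nat.mod_eq_of_lt
    have : 2 ^ (a % 64) ≤ 2 ^ 63 := Nat.pow_le_pow_right (by norm_num)
      (by have := Nat.mod_lt a (show 0 < 64 by norm_num); omega)
    have h4 : (2 : ℕ) ^ 63 < 18446744073709551615 := by norm_num
    omega
  exact Eq.trans h2 h3

theorem go_zero (n : ℕ) (check : List ℕ → Bool) (Bs : List ℕ) (rem Rw CD W T : ℕ) :
    go n check 0 Bs rem Rw CD W T = false := rfl

theorem go_succ (n : ℕ) (check : List ℕ → Bool) (f : ℕ) (Bs : List ℕ) (rem Rw CD W T : ℕ) :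
    go n check (f + 1) Bs rem Rw CD W T = cond (Nat.beq T 0)
        (cond (Nat.beq Rw 0)
          (cond (Nat.beq (singles CD n).length rem) (check (Bs.reverse ++ singles CD n)) true)
          false)
        ((fun p => (fun r => cond (Nat.beq r 0) false
          ((fun q => clq Rw
            (fun B s => upd B (s - 1)
              (fun Rw' CD' W' T' =>
                cond (Nat.ble W' (60 * (rem - 1)))
                  (go n check f (B :: Bs) (rem - 1) Rw' CD' W' T') true)
              s B Rw CD W T)
            64 (p ||| q) 2 (r &&& rowOf Rw q)) (lowp r)))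
          (rowOf Rw p))
          (Nat.mod (Nat.gcd T 1044388881413152506691752710716624382579964249047383780384233483283953907971557456848826811934997558340890106714439262837987573438185793607263236087851365277945956976543709998340361590134383718314428070011855946226376318839397712745672334684344586617496807908705803704071284048740118609114467977783598029006686938976881787785946905630190260940599579453432823469303026696443059025015972399867714215541693835559885291486318237914434496734087811872639496475100189041349008417061675093668333850551032972088269550769983616369411933015213796825837188091833656751221318492846368125550225998300412344784862595674492194617023806505913245610825731835380087608622102834270197698202313169017678006675195485079921636419370285375124784014907159135459982790513399611551794271106831134090584272884279791554849782954323534517065223269061394905987693002122963395687782878948440616007412945674919823050571642377154816321380631045902916136926708342856440730447899971901781465763473223850267253059899795996090799469201774624817718449867455659250178329070473119433165550807568221846571746373296884912819520317457002440926616910874148385078411929804522981857338977648103126085903001302413467189726673216491511131602920781738033436090243804708340403154190336)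 18446744073709551615)) := by
  have : go n check (f + 1) Bs rem Rw CD W T = cond (Nat.beq T 0)
        (cond (Nat.beq Rw 0)
          (cond (Nat.beq (singles CD n).length rem) (check (Bs.reverse ++ singles CD n)) true)
          false)
        (forceT (Nat.mod (Nat.gcd T 1044388881413152506691752710716624382579964249047383780384233483283953907971557456848826811934997558340890106714439262837987573438185793607263236087851365277945956976543709998340361590134383718314428070011855946226376318839397712745672334684344586617496807908705803704071284048740118609114467977783598029006686938976881787785946905630190260940599579453432823469303026696443059025015972399867714215541693835559885291486318237914434496734087811872639496475100189041349008417061675093668333850551032972088269550769983616369411933015213796825837188091833656751221318492846368125550225998300412344784862595674492194617023806505913245610825731835380087608622102834270197698202313169017678006675195485079921636419370285375124784014907159135459982790513399611551794271106831134090584272884279791554849782954323534517065223269061394905987693002122963395687782878948440616007412945674919823050571642377154816321380631045902916136926708342856440730447899971901781465763473223850267253059899795996090799469201774624817718449867455659250178329070473119433165550807568221846571746373296884912819520317457002440926616910874148385078411929804522981857338977648103126085903001302413467189726673216491511131602920781738033436090243804708340403154190336)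 18446744073709551615) fun p =>
          forceT (rowOf Rw p) fun r => cond (Nat.beq r 0) false
          (forceT (lowp r) fun q => forceT (Nat.lor p q) fun b =>
           forceT (Nat.land r (rowOf Rw q)) fun c =>
           forceT (Nat.pred rem) fun rem' => 
           clq Rw
            (fun B s => upd B (Nat.pred s)
              (fun Rw' CD' W' T' =>
                cond (Nat.ble W' (Nat.mul 60 rem'))
                  (go n check f (B :: Bs) rem' Rw' CD' W' T') true)
              s B Rw CD W T)
            64 b 2 c)) := rfl
  rw [this]
  simp only [forceT_eq]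
  rfl

theorem singles_succ (CD n : ℕ) : singles CD (n + 1) =
    List.replicate (dig CD (2 ^ n) / 16) (2 ^ n) ++ singles CD n := rfl

theorem count_singles (CD x : ℕ) : ∀ n, (singles CD n).count x =
    ∑ i ∈ Finset.range n, if x = 2 ^ i then dig CD (2 ^ i) / 16 else 0 := by
  intro n
  induction n with
  | zero => rfl
  | succ n ih =>
    rw [singles_succ, List.count_append, List.count_replicate, ih, Finset.sum_range_succ,
      Nat.add_comm]
    congr 1
    by_cases h : 2 ^ n = x
    · simp [h]
    · have h' : ¬ (x = 2 ^ n) := fun e => h e.symm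
      rw [if_neg (by simpa using h), if_neg h']

theorem cnt_eq_count {R : Multiset ℕ} {i : ℕ} (h : ∀ B ∈ R, B.testBit i = true → B = 2 ^ i) :
    cnt R i = R.count (2 ^ i) := by
  induction R using Multiset.induction_on with
  | empty => simp [cnt]
  | cons B R ih =>
    rw [cnt_cons, Multiset.count_cons, ih (fun B' h' => h B' (Multiset.mem_cons_of_mem h')),
      Nat.add_comm]
    congr 1
    by_cases hb : B.testBit i = true
    · rw [if_pos hb, if_pos (h B (Multiset.mem_cons_self _ _) hb).symm]
    · rw [if_neg hb, if_neg]
      rintro rfl
      simp at hb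

theorem lt_of_testBit {B n j : ℕ} (h1 : B < 2 ^ n) (hj : B.testBit j = true) : j < n := by
  by_contra hcon
  have := Nat.testBit_lt_two_pow (lt_of_lt_of_le h1
    (Nat.pow_le_pow_right (by norm_num : 0 < 2) (not_lt.1 hcon)))
  rw [this] at hj
  exact absurd hj (by simp)

theorem pr_pos_of_mem {R : Multiset ℕ} {B i j : ℕ} (hB : B ∈ R) (hi : B.testBit i = true)
    (hj : B.testBit j = true) : 0 < pr R i j := by
  obtain ⟨R', rfl⟩ := Multiset.exists_cons_of_mem hB
  rw [pr_cons, if_pos ⟨hi, hj⟩]
  omega

theorem final_sound (n : ℕ) (hn : n ≤ 64) (CD : ℕ) (R : Multiset ℕ)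
    (hR : ∀ B ∈ R, B ≠ 0 ∧ B < 2 ^ n)
    (hC : ∀ i < n, CD / 2 ^ (8 * i) % 256 = 16 * cnt R i + dg R i ∧ dg R i < 16)
    (hP : ∀ i < 64, ∀ j < 64, i ≠ j → pr R i j = 0) :
    R = (singles CD n : Multiset ℕ) := by
  have h1 : ∀ B ∈ R, ∀ i, B.testBit i = true → B = 2 ^ i := by
    intro B hB i hi
    apply Nat.eq_of_testBit_eq
    intro j
    rw [Nat.testBit_two_pow]
    by_cases hij : i = j
    · subst hij; simp [hi]
    · simp only [hij, decide_false]
      by_contra hj
      simp only [Bool.not_eq_false] at hj
      have hi' := lt_of_lt_of_le (lt_of_testBit (hR B hB).2 hi) hn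
      have hj' := lt_of_lt_of_le (lt_of_testBit (hR B hB).2 hj) hn
      have := hP i hi' j hj' hij
      have := pr_pos_of_mem hB hi hj
      omega
  have h2 : ∀ i < n, dig CD (2 ^ i) / 16 = R.count (2 ^ i) := by
    intro i hi
    rw [dig_eq, (hC i hi).1, ← cnt_eq_count (fun B hB h => h1 B hB i h)]
    have := (hC i hi).2
    omega
  apply Multiset.ext.2
  intro x
  rw [Multiset.coe_count, count_singles]
  by_cases hx : ∃ i < n, x = 2 ^ i
  · obtain ⟨i, hi, rfl⟩ := hx
    rw [Finset.sum_eq_single i]
    · rw [if_pos rfl, h2 i hi]
    · intro j _ hj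
      rw [if_neg]
      intro h
      exact hj (Nat.pow_right_injective (le_refl 2) h).symm
    · intro h
      exact absurd (Finset.mem_range.2 hi) h
  · rw [Multiset.count_eq_zero.2, Finset.sum_eq_zero]
    · intro i hi
      rw [if_neg]
      intro h
      exact hx ⟨i, Finset.mem_range.1 hi, h⟩
    · intro hxR
      obtain ⟨h3, h4⟩ := hR x hxR
      obtain ⟨j, hj⟩ := Nat.exists_testBit_of_ne_zero h3
      exact hx ⟨j, lt_of_testBit h4 hj, h1 x hxR j hj⟩


theorem go_sound (n : ℕ) (hn : n ≤ 64) (check : List ℕ → Bool) : ∀ (f : ℕ) (Bs : List ℕ)
    (rem Rw CD W T : ℕ), go n check f Bs rem Rw CD W T = true →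
    ∀ R : Multiset ℕ, (∀ B ∈ R, B ≠ 0 ∧ B < 2 ^ n) → Multiset.card R = rem →
    (∀ i < n, CD / 2 ^ (8 * i) % 256 = 16 * cnt R i + dg R i ∧ dg R i < 16) →
    (∀ i < 64, ∀ j < 64, i ≠ j →
      pr R i j = if Rw.testBit (64 * i + j) = true then 1 else 0) →
    (∀ i < 64, Rw.testBit (64 * i + i) = false) →
    W = ∑ i ∈ Finset.range n, tb (CD / 2 ^ (8 * i) % 256) →
    ∃ L' : List ℕ, check L' = true ∧ (L' : Multiset ℕ) = (Bs : Multiset ℕ) + R := by
  intro f
  induction f with
  | zero =>
    intro Bs rem Rw CD W T h
    rw [go_zero] at h
    exact absurd h (by simp)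
  | succ f ih =>
    intro Bs rem Rw CD W T h R hR hcard hC hP hD hW
    rw [go_succ] at h
    by_cases hT : T = 0
    · subst hT
      have h2 : Nat.beq 0 0 = true := rfl
      rw [h2, cond_true] at h
      by_cases hRw : Rw = 0
      · subst hRw
        rw [h2, cond_true] at h
        have hfin := final_sound n hn CD R hR hC (fun i hi j hj hij => by
          rw [hP i hi j hj hij]; simp)
        have hlen : (singles CD n).length = rem := by
          rw [← hcard, hfin, Multiset.coe_card]
        rw [hlen] at h
        have h3 : Nat.beq rem rem = true := Nat.beq_refl rem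
        rw [h3, cond_true] at h
        refine ⟨_, h, ?_⟩
        rw [hfin, ← Multiset.coe_add, Multiset.coe_reverse]
      · rw [beq_zero_false hRw] at h
        simp at h
    · rw [beq_zero_false hT, cond_false] at h
      obtain ⟨v, hv, hv2⟩ := gcd_spec hT
      rw [hv2] at h
      simp only [] at h
      by_cases hr : rowOf Rw (2 ^ v) = 0
      · rw [hr] at h
        have h2 : Nat.beq 0 0 = true := rfl
        rw [h2] at h
        simp at h
      · rw [beq_zero_false hr, cond_false] at h
        have hrlt : rowOf Rw (2 ^ v) < 2 ^ 64 := by
          apply Nat.lt_pow_two_of_testBit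
          intro i hi
          rw [rowOf_testBit]
          simp [hi]
        obtain ⟨u, hu, hu2, hu3⟩ := lowp_spec hr hrlt
        rw [hu2] at h
        rw [rowOf_testBit] at hu3
        simp only [Bool.and_eq_true, decide_eq_true_eq] at hu3
        have huv : v ≠ u := by
          rintro rfl
          rw [hD v hv] at hu3
          exact absurd hu3.2 (by simp)
        have hpr : pr R v u = 1 := by
          rw [hP v hv u hu huv, if_pos hu3.2]
        obtain ⟨B, hBR, hBv, hBu⟩ := exists_of_pr_pos (R := R) (i := v) (j := u) (by omega)
        obtain ⟨R', rfl⟩ := Multiset.exists_cons_of_mem hBR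
        obtain ⟨hB0, hBn⟩ := hR B (Multiset.mem_cons_self _ _)
        have hB64 : B < 2 ^ 64 := lt_of_lt_of_le hBn (Nat.pow_le_pow_right (by norm_num) hn)
        have hadj : ∀ i j, i ≠ j → B.testBit i = true → B.testBit j = true →
            Rw.testBit (64 * i + j) = true := by
          intro i j hij hi hj
          have h5 := hP i (lt_of_testBit hB64 hi) j (lt_of_testBit hB64 hj) hij
          have h6 := pr_pos_of_mem hBR hi hj
          by_contra hcon
          rw [if_neg hcon] at h5
          omega
        have hk := clq_sound Rw _ 64 _ 2 _ h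
          (lt_of_le_of_lt Nat.and_le_left hrlt)
          (by
            have h7 : pc (2 ^ v ||| 2 ^ u) = pc (2 ^ v) + 1 :=
              pc_or_two_pow hu (by rw [Nat.testBit_two_pow]; simp [huv])
            have h8 : pc (2 ^ v) = 1 := by
              have := pc_or_two_pow (blk := 0) hv (by simp)
              rw [Nat.zero_or] at this
              rw [this]
              simp [pc]
            rw [h7, h8])
          (by
            intro i hi
            rw [Nat.testBit_and, rowOf_testBit, rowOf_testBit] at hi
            simp only [Bool.and_eq_true, decide_eq_true_eq] at hi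
            rw [Nat.testBit_or, Nat.testBit_two_pow, Nat.testBit_two_pow]
            have h9 : v ≠ i := by
              rintro rfl
              rw [hD v hv] at hi
              exact absurd hi.1.2 (by simp)
            have h10 : u ≠ i := by
              rintro rfl
              rw [hD u hu] at hi
              exact absurd hi.2.2 (by simp)
            simp [h9, h10])
          B
          (by
            intro i hi
            rw [Nat.testBit_or, Nat.testBit_two_pow, Nat.testBit_two_pow] at hi
            simp only [Bool.or_eq_true, decide_eq_true_eq] at hi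
            rcases hi with rfl | rfl
            · exact hBv
            · exact hBu)
          (by
            intro i hi
            rw [Nat.testBit_or, Nat.testBit_two_pow, Nat.testBit_two_pow, Nat.testBit_and,
              rowOf_testBit, rowOf_testBit]
            have h11 := lt_of_testBit hB64 hi
            by_cases h12 : v = i
            · left; simp [h12]
            · by_cases h13 : u = i
              · left; simp [h13]
              · right
                rw [hadj v i h12 hBv hi, hadj u i h13 hBu hi]
                simp [h11])
          hadj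
        have hpcpos : 0 < pc B := pc_pos (lt_of_testBit hB64 hBv) hBv
        obtain ⟨Rw', CD', W', T', hk', hRw', hCD', hW'⟩ := upd_sound n B (pc B - 1) _ hB64 _ B
          Rw CD W T hk hB64 (fun i hi => ⟨hi, lt_of_testBit hBn hi⟩)
          (fun i hi => by
            rw [(hC i (lt_of_testBit hBn hi)).1, cnt_cons, dg_cons, if_pos hi, if_pos hi]
            omega) hW
        have hR'' : ∀ B' ∈ R', B' ≠ 0 ∧ B' < 2 ^ n := fun B' h' =>
          hR B' (Multiset.mem_cons_of_mem h')
        have hC' : ∀ i < n, CD' / 2 ^ (8 * i) % 256 = 16 * cnt R' i + dg R' i ∧ dg R' i < 16 := by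
          intro i hi
          obtain ⟨h14, h15⟩ := hC i hi
          rw [hCD' i, h14, cnt_cons, dg_cons]
          rw [dg_cons] at h15
          by_cases hb : B.testBit i = true
          · simp only [if_pos hb] at h15 ⊢
            constructor <;> omega
          · simp only [if_neg hb] at h15 ⊢
            constructor <;> omega
        have hcard' : Multiset.card R' = rem - 1 := by
          rw [← hcard, Multiset.card_cons]; rfl
        have hbd : W' ≤ 60 * (rem - 1) := by
          rw [hW', ← hcard']
          exact bound n hn R' hR'' (fun i => CD' / 2 ^ (8 * i) % 256) (fun i hi =>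
            ⟨Nat.mod_lt _ (by norm_num), (hC' i hi).1, (hC' i hi).2⟩)
        have hble : Nat.ble W' (60 * (rem - 1)) = true := by
          rw [Nat.ble_eq]; exact hbd
        rw [hble, cond_true] at hk'
        obtain ⟨L', hL1, hL2⟩ := ih (B :: Bs) (rem - 1) Rw' CD' W' T' hk' R' hR'' hcard' hC'
          (by
            intro i hi j hj hij
            have h16 := hP i hi j hj hij
            rw [pr_cons] at h16
            rw [hRw' i j hi hj]
            have hji : j ≠ i := fun h => hij h.symm
            by_cases hbi : B.testBit i = true
            · by_cases hbj : B.testBit j = true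
              · rw [if_pos ⟨hbi, hbj⟩] at h16
                have h17 := hadj i j hij hbi hbj
                rw [h17] at h16 ⊢
                simp only [if_true] at h16
                have h18 : pr R' i j = 0 := by omega
                rw [h18]
                simp [hbi, hbj, hji]
              · rw [if_neg (fun h => hbj h.2)] at h16
                simp only [Bool.not_eq_true] at hbj
                rw [hbj]
                simpa using h16
            · rw [if_neg (fun h => hbi h.1)] at h16
              simp only [Bool.not_eq_true] at hbi
              rw [hbi]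
              simpa using h16)
          (by
            intro i hi
            rw [hRw' i i hi hi, hD i hi]
            simp)
          hW'
        refine ⟨L', hL1, ?_⟩
        rw [hL2, ← Multiset.cons_coe, Multiset.cons_add, Multiset.add_cons]

end DPS
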