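import Pool.Agent.H9.DP.Sound

namespace DPS

theorem pcf_succ (f x : ℕ) : pcf (f + 1) x =
    cond (Nat.beq x 0) 0 (pcf f (x ^^^ lowp x) + 1) := by
  have : pcf (f + 1) x = cond (Nat.beq x 0) 0 (Nat.succ (forceT (Nat.xor x (lowp x)) (pcf f))) :=
    rfl
  rw [this, forceT_eq]
  rfl

theorem pc_le (x : ℕ) : pc x ≤ 64 := by
  unfold pc
  exact le_trans (Finset.card_filter_le _ _) (by simp)

theorem pc_zero : pc 0 = 0 := by simp [pc]

theorem pcf_eq : ∀ (f x : ℕ), x < 2 ^ 64 → pc x ≤ f → pcf f x = pc x := by
  intro f
  induction f with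
  | zero =>
    intro x hx hf
    have : pcf 0 x = 0 := rfl
    rw [this]; omega
  | succ f ih =>
    intro x hx hf
    rw [pcf_succ]
    by_cases h0 : x = 0
    · subst h0
      rw [pc_zero]
      rfl
    · rw [beq_zero_false h0, cond_false]
      obtain ⟨a, ha, hl, hat⟩ := lowp_spec h0 hx
      rw [hl]
      have h1 : (x ^^^ 2 ^ a) ||| 2 ^ a = x := by
        apply Nat.eq_of_testBit_eq
        intro i
        rw [Nat.testBit_or, Nat.testBit_xor, Nat.testBit_two_pow]
        by_cases hia : a = i
        · subst hia; simp [hat]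
        · simp [hia]
      have h2 : pc x = pc (x ^^^ 2 ^ a) + 1 := by
        conv_lhs => rw [← h1]
        apply pc_or_two_pow ha
        rw [Nat.testBit_xor, Nat.testBit_two_pow]
        simp [hat]
      rw [ih _ (Nat.xor_lt_two_pow hx (Nat.pow_lt_pow_right (by norm_num) ha)) (by omega), h2]

theorem pcf_eq' {x : ℕ} (hx : x < 2 ^ 64) : pcf 64 x = pc x := pcf_eq 64 x hx (pc_le x)

theorem testBit_add_two_mul_zero (c N : ℕ) (hc : c < 2) : (c + 2 * N).testBit 0 = decide (c = 1) := by
  rw [Nat.testBit_zero]
  congr 1
  apply propext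
  omega

theorem testBit_add_two_mul_succ (c N m : ℕ) (hc : c < 2) :
    (c + 2 * N).testBit (m + 1) = N.testBit m := by
  rw [Nat.testBit_succ]
  congr 1
  omega

theorem rmask_cons (b i a : ℕ) (l : List ℕ) (j : ℕ) : rmask b i (a :: l) j =
    (cond (Nat.beq j i) 0 (cond (Nat.beq (a &&& b) 0) 0 1)) + 2 * rmask b i l (j + 1) := rfl

theorem rmask_testBit (b i : ℕ) : ∀ (l : List ℕ) (j m : ℕ), (rmask b i l j).testBit m =
    decide (m < l.length ∧ j + m ≠ i ∧ (l.getD m 0 &&& b) ≠ 0) := by
  intro l
  induction l with
  | nil => intro j m; simp [rmask]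
  | cons a l ih =>
    intro j m
    rw [rmask_cons]
    have hc : (cond (Nat.beq j i) 0 (cond (Nat.beq (a &&& b) 0) 0 1)) < 2 := by
      cases Nat.beq j i <;> cases Nat.beq (a &&& b) 0 <;> simp
    cases m with
    | zero =>
      rw [testBit_add_two_mul_zero _ _ hc]
      simp only [List.length_cons, List.getD_cons_zero, Nat.add_zero]
      congr 1
      apply propext
      by_cases h1 : j = i
      · subst h1
        have : Nat.beq j j = true := Nat.beq_refl j
        simp
      · have : Nat.beq j i = false := by
          rw [← Bool.not_eq_true, Nat.beq_eq]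
          exact h1
        rw [this, cond_false]
        by_cases h2 : a &&& b = 0
        · simp [h2]
        · rw [beq_zero_false h2]
          simp [h1, h2]
    | succ m =>
      rw [testBit_add_two_mul_succ _ _ _ hc, ih]
      simp only [List.length_cons, List.getD_cons_succ, Nat.add_lt_add_iff_right]
      rw [show j + 1 + m = j + (m + 1) by ring]

theorem rmask_lt (b i : ℕ) (l : List ℕ) (j : ℕ) : rmask b i l j < 2 ^ l.length := by
  apply Nat.lt_pow_two_of_testBit
  intro m hm
  rw [rmask_testBit]
  simp only [decide_eq_false_iff_not, not_and]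
  intro h
  omega

theorem rmasks_cons (L : List ℕ) (a : ℕ) (l : List ℕ) (i : ℕ) :
    rmasks L (a :: l) i = rmask a i L 0 :: rmasks L l (i + 1) := by
  have : rmasks L (a :: l) i = forceT (rmask a i L 0) (fun r => r :: rmasks L l (Nat.succ i)) := rfl
  rw [this, forceT_eq]

theorem rmasks_length (L : List ℕ) : ∀ (l : List ℕ) (i : ℕ), (rmasks L l i).length = l.length := by
  intro l
  induction l with
  | nil => intro i; rfl
  | cons a l ih => intro i; rw [rmasks_cons, List.length_cons, List.length_cons, ih]

theorem rmasks_getD (L : List ℕ) : ∀ (l : List ℕ) (i m : ℕ), m < l.length →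
    (rmasks L l i).getD m 0 = rmask (l.getD m 0) (i + m) L 0 := by
  intro l
  induction l with
  | nil => intro i m h; simp at h
  | cons a l ih =>
    intro i m h
    rw [rmasks_cons]
    cases m with
    | zero => simp
    | succ m =>
      rw [List.getD_cons_succ, List.getD_cons_succ, ih (i + 1) m (by simpa using h)]
      rw [show i + 1 + m = i + (m + 1) by ring]

theorem pack_cons (s a : ℕ) (l : List ℕ) : pack s (a :: l) = a + pack s l * 2 ^ s := by
  have : pack s (a :: l) = a + (pack s l) <<< s := rfl
  rw [this, Nat.shiftLeft_eq]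

theorem pack8 : ∀ (l : List ℕ), (∀ a ∈ l, a < 256) → ∀ i, pack 8 l / 2 ^ (8 * i) % 256 = l.getD i 0 := by
  intro l
  induction l with
  | nil => intro _ i; simp [pack]
  | cons a l ih =>
    intro h i
    rw [pack_cons]
    have ha := h a (List.mem_cons_self)
    cases i with
    | zero =>
      simp only [Nat.mul_zero, pow_zero, Nat.div_one, List.getD_cons_zero]
      omega
    | succ i =>
      rw [List.getD_cons_succ, ← ih (fun b hb => h b (List.mem_cons_of_mem _ hb)) i]
      rw [show 8 * (i + 1) = 8 + 8 * i by ring, pow_add, ← Nat.div_div_eq_div_mul]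
      congr 2
      norm_num
      omega

theorem pack64 : ∀ (l : List ℕ), (∀ a ∈ l, a < 2 ^ 64) → ∀ i j, j < 64 →
    (pack 64 l).testBit (64 * i + j) = (l.getD i 0).testBit j := by
  intro l
  induction l with
  | nil => intro _ i j _; simp [pack]
  | cons a l ih =>
    intro h i j hj
    rw [pack_cons, Nat.add_comm, Nat.mul_comm]
    have ha := h a (List.mem_cons_self)
    rw [Nat.testBit_two_pow_mul_add _ ha]
    cases i with
    | zero =>
      rw [if_pos (by omega)]
      simp
    | succ i =>
      rw [if_neg (by omega), List.getD_cons_succ,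
        ← ih (fun b hb => h b (List.mem_cons_of_mem _ hb)) i j hj]
      congr 1
      omega

theorem codes_cons (a : ℕ) (l : List ℕ) (b : ℕ) (r : List ℕ) :
    codes (a :: l) (b :: r) = (16 * (pcf 64 a + 1) + pcf 64 b) :: codes l r := by
  have : codes (a :: l) (b :: r) = forceT (Nat.add (Nat.mul 16 (Nat.succ (pcf 64 a))) (pcf 64 b))
      (fun c => c :: codes l r) := rfl
  rw [this, forceT_eq]
  rfl

theorem codes_length : ∀ (l r : List ℕ), l.length = r.length → (codes l r).length = l.length := by
  intro l
  induction l with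
  | nil => intro r _; rfl
  | cons a l ih =>
    intro r h
    cases r with
    | nil => simp at h
    | cons b r => rw [codes_cons, List.length_cons, List.length_cons, ih r (by simpa using h)]

theorem codes_getD : ∀ (l r : List ℕ), l.length = r.length → ∀ m, m < l.length →
    (codes l r).getD m 0 = 16 * (pcf 64 (l.getD m 0) + 1) + pcf 64 (r.getD m 0) := by
  intro l
  induction l with
  | nil => intro r _ m h; simp at h
  | cons a l ih =>
    intro r h m hm
    cases r with
    | nil => simp at h
    | cons b r =>
      rw [codes_cons]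
      cases m with
      | zero => simp
      | succ m =>
        rw [List.getD_cons_succ, List.getD_cons_succ, List.getD_cons_succ,
          ih r (by simpa using h) m (by simpa using hm)]

theorem okc_cons (a : ℕ) (l : List ℕ) (b : ℕ) (r : List ℕ) : okc (a :: l) (b :: r) =
    cond (Nat.ble (pcf 64 a) 14) (cond (Nat.ble (pcf 64 b) 15) (okc l r) false) false := rfl

theorem okc_spec : ∀ (l r : List ℕ), l.length = r.length → okc l r = true → ∀ m, m < l.length →
    pcf 64 (l.getD m 0) ≤ 14 ∧ pcf 64 (r.getD m 0) ≤ 15 := by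
  intro l
  induction l with
  | nil => intro r _ _ m h; simp at h
  | cons a l ih =>
    intro r h ho m hm
    cases r with
    | nil => simp at h
    | cons b r =>
      rw [okc_cons] at ho
      by_cases h1 : Nat.ble (pcf 64 a) 14 = true
      · rw [h1, cond_true] at ho
        by_cases h2 : Nat.ble (pcf 64 b) 15 = true
        · rw [h2, cond_true] at ho
          rw [Nat.ble_eq] at h1 h2
          cases m with
          | zero => exact ⟨by simpa using h1, by simpa using h2⟩
          | succ m =>
            rw [List.getD_cons_succ, List.getD_cons_succ]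
            exact ih r (by simpa using h) ho m (by simpa using hm)
        · simp only [Bool.not_eq_true] at h2
          rw [h2] at ho
          simp at ho
      · simp only [Bool.not_eq_true] at h1
        rw [h1] at ho
        simp at ho

theorem sumW_cons (a : ℕ) (l : List ℕ) : sumW (a :: l) = tb a + sumW l := rfl

theorem sumW_eq : ∀ l : List ℕ, sumW l = ∑ i ∈ Finset.range l.length, tb (l.getD i 0) := by
  intro l
  induction l with
  | nil => rfl
  | cons a l ih =>
    rw [sumW_cons, List.length_cons, Finset.sum_range_succ', ih]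
    simp [Nat.add_comm]

theorem start_eq (goal : ℕ) (check : List ℕ → Bool) (L : List ℕ) : start goal check L =
    cond (Nat.ble L.length 64) (cond (okc L (rmasks L L 0))
      (cond (Nat.ble (sumW (codes L (rmasks L L 0))) (60 * goal))
        (go L.length check 64 [] goal (pack 64 (rmasks L L 0)) (pack 8 (codes L (rmasks L L 0)))
          (sumW (codes L (rmasks L L 0))) (initT (codes L (rmasks L L 0)) 0)) true) false) false := by
  have : start goal check L = forceT (sumW (codes L (rmasks L L 0))) fun W =>
    cond (Nat.ble L.length 64) (cond (okc L (rmasks L L 0)) (cond (Nat.ble W (Nat.mul 60 goal))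
    (forceT L.length fun n => forceT (pack 64 (rmasks L L 0)) fun Rw =>
      forceT (pack 8 (codes L (rmasks L L 0))) fun CD =>
      forceT (initT (codes L (rmasks L L 0)) 0) fun T =>
      go n check 64 [] goal Rw CD W T)
    true) false) false := rfl
  rw [this]
  simp only [forceT_eq]
  rfl

theorem pc_sub_one {n i B : ℕ} (hn : n ≤ 64) (hB : B < 2 ^ n) (hi : B.testBit i = true) :
    pc B - 1 = ∑ j ∈ Finset.range n, if j ≠ i ∧ (B.testBit i = true ∧ B.testBit j = true)
      then 1 else 0 := by
  have h1 : pc B = ((Finset.range n).filter fun j => B.testBit j = true).card := by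
    unfold pc
    congr 1
    ext j
    simp only [Finset.mem_filter, Finset.mem_range]
    constructor
    · rintro ⟨_, h⟩; exact ⟨lt_of_testBit hB h, h⟩
    · rintro ⟨h, h'⟩; exact ⟨by omega, h'⟩
  rw [Finset.sum_boole, h1, Nat.cast_id,
    ← Finset.card_erase_of_mem (a := i) (s := (Finset.range n).filter fun j => B.testBit j = true)
      (by simp [hi, lt_of_testBit hB hi])]
  congr 1
  ext j
  simp only [Finset.mem_erase, Finset.mem_filter, Finset.mem_range]
  tauto

theorem dg_eq_sum (n : ℕ) (hn : n ≤ 64) (M : Multiset ℕ) (hM : ∀ B ∈ M, B < 2 ^ n) (i : ℕ) :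
    dg M i = ∑ j ∈ Finset.range n, if j ≠ i then pr M i j else 0 := by
  induction M using Multiset.induction_on with
  | empty => simp [dg, pr]
  | cons B M ih =>
    rw [dg_cons, ih (fun B' h => hM B' (Multiset.mem_cons_of_mem h))]
    have hB := hM B (Multiset.mem_cons_self _ _)
    have h2 : ∀ j, (if j ≠ i then pr (B ::ₘ M) i j else 0) =
        (if j ≠ i ∧ (B.testBit i = true ∧ B.testBit j = true) then 1 else 0)
          + (if j ≠ i then pr M i j else 0) := by
      intro j
      rw [pr_cons]
      by_cases hj : j ≠ i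
      · simp [hj]
      · simp [hj]
    simp only [h2]
    rw [Finset.sum_add_distrib]
    congr 1
    by_cases hi : B.testBit i = true
    · rw [if_pos hi, pc_sub_one hn hB hi]
    · rw [if_neg hi]
      symm
      apply Finset.sum_eq_zero
      intro j _
      rw [if_neg]
      rintro ⟨_, h, _⟩
      exact hi h

theorem pr_zero_of_ge {M : Multiset ℕ} {n : ℕ} (hM : ∀ B ∈ M, B < 2 ^ n) {i j : ℕ}
    (h : n ≤ i ∨ n ≤ j) : pr M i j = 0 := by
  by_contra hcon
  obtain ⟨B, hB, h1, h2⟩ := exists_of_pr_pos (Nat.pos_of_ne_zero hcon)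
  have h3 := lt_of_testBit (hM B hB) h1
  have h4 := lt_of_testBit (hM B hB) h2
  omega

/-- Soundness of the extension search. -/
theorem start_sound (goal : ℕ) (check : List ℕ → Bool) (L : List ℕ)
    (h : start goal check L = true) (hL : ∀ a ∈ L, a < 2 ^ 64)
    (M : Multiset ℕ) (hM : ∀ B ∈ M, B ≠ 0 ∧ B < 2 ^ L.length) (hcard : Multiset.card M = goal)
    (hc : ∀ i < L.length, cnt M i = pc (L.getD i 0) + 1)
    (hp : ∀ i < L.length, ∀ j < L.length, i ≠ j →
      pr M i j = if (L.getD i 0 &&& L.getD j 0) = 0 then 0 else 1) :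
    ∃ L' : List ℕ, check L' = true ∧ (L' : Multiset ℕ) = M := by
  rw [start_eq] at h
  have hn : L.length ≤ 64 := by
    by_contra hcon
    have : Nat.ble L.length 64 = false := by
      rw [← Bool.not_eq_true, Nat.ble_eq]; exact hcon
    rw [this] at h
    simp at h
  have h1 : Nat.ble L.length 64 = true := by rw [Nat.ble_eq]; exact hn
  rw [h1, cond_true] at h
  have hok : okc L (rmasks L L 0) = true := by
    by_contra hcon
    simp only [Bool.not_eq_true] at hcon
    rw [hcon] at h
    simp at h
  rw [hok, cond_true] at h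
  have hlen := rmasks_length L L 0
  have hbd := okc_spec L _ hlen.symm hok
  have hr64 : ∀ i < L.length, (rmasks L L 0).getD i 0 < 2 ^ 64 := by
    intro i hi
    rw [rmasks_getD L L 0 i hi]
    exact lt_of_lt_of_le (rmask_lt _ _ _ _) (Nat.pow_le_pow_right (by norm_num) hn)
  have hL64 : ∀ i, L.getD i 0 < 2 ^ 64 := by
    intro i
    by_cases hi : i < L.length
    · rw [List.getD_eq_getElem _ _ hi]
      exact hL _ (List.getElem_mem hi)
    · rw [List.getD_eq_default _ _ (by omega)]
      norm_num
  -- degrees
  have hdeg : ∀ i < L.length, dg M i = pc ((rmasks L L 0).getD i 0) := by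
    intro i hi
    rw [dg_eq_sum L.length hn M (fun B hB => (hM B hB).2) i, rmasks_getD L L 0 i hi]
    have h2 : pc (rmask (L.getD i 0) (0 + i) L 0) = ((Finset.range L.length).filter fun j =>
        j ≠ i ∧ (L.getD j 0 &&& L.getD i 0) ≠ 0).card := by
      unfold pc
      congr 1
      ext j
      rw [Finset.mem_filter, rmask_testBit, Finset.mem_filter, Finset.mem_range,
        Finset.mem_range, decide_eq_true_iff]
      simp only [zero_add]
      constructor
      · rintro ⟨_, h3, h4, h5⟩; exact ⟨h3, h4, h5⟩
      · rintro ⟨h3, h4, h5⟩; exact ⟨by omega, h3, h4, h5⟩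
    rw [h2, Finset.card_filter]
    apply Finset.sum_congr rfl
    intro j hj
    have hj' := Finset.mem_range.1 hj
    by_cases hji : j = i
    · simp [hji]
    · have hij : i ≠ j := fun e => hji e.symm
      rw [if_pos hji, hp i hi j hj' hij, Nat.and_comm]
      by_cases h5 : L.getD j 0 &&& L.getD i 0 = 0
      · rw [if_pos h5, if_neg (fun hh => hh.2 h5)]
      · rw [if_neg h5, if_pos ⟨hji, h5⟩]
  have hclen := codes_length L (rmasks L L 0) hlen.symm
  have hcode : ∀ i < L.length, (codes L (rmasks L L 0)).getD i 0 = 16 * cnt M i + dg M i ∧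
      dg M i < 16 ∧ (codes L (rmasks L L 0)).getD i 0 < 256 := by
    intro i hi
    rw [codes_getD _ _ hlen.symm i hi, hc i hi, hdeg i hi, pcf_eq' (hL64 i), pcf_eq' (hr64 i hi)]
    obtain ⟨h6, h7⟩ := hbd i hi
    rw [pcf_eq' (hL64 i)] at h6
    rw [pcf_eq' (hr64 i hi)] at h7
    refine ⟨rfl, by omega, by omega⟩
  have hall : ∀ a ∈ codes L (rmasks L L 0), a < 256 := by
    intro a ha
    obtain ⟨i, hi, rfl⟩ := List.mem_iff_getElem.1 ha
    rw [← List.getD_eq_getElem _ 0 hi]
    exact (hcode i (by rw [← hclen]; exact hi)).2.2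
  have hall2 : ∀ a ∈ rmasks L L 0, a < 2 ^ 64 := by
    intro a ha
    obtain ⟨i, hi, rfl⟩ := List.mem_iff_getElem.1 ha
    rw [← List.getD_eq_getElem _ 0 hi]
    exact hr64 i (by rw [← hlen]; exact hi)
  have hD8 := pack8 _ hall
  have hW : sumW (codes L (rmasks L L 0)) = ∑ i ∈ Finset.range L.length,
      tb (pack 8 (codes L (rmasks L L 0)) / 2 ^ (8 * i) % 256) := by
    rw [sumW_eq, hclen]
    apply Finset.sum_congr rfl
    intro i _
    rw [hD8 i]
  have hbound : sumW (codes L (rmasks L L 0)) ≤ 60 * goal := by
    rw [hW, ← hcard]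
    refine bound L.length hn M hM _ (fun i hi => ?_)
    rw [hD8 i]
    exact ⟨(hcode i hi).2.2, (hcode i hi).1, (hcode i hi).2.1⟩
  have h8 : Nat.ble (sumW (codes L (rmasks L L 0))) (60 * goal) = true := by
    rw [Nat.ble_eq]; exact hbound
  rw [h8, cond_true] at h
  have hrow : ∀ i < 64, ∀ j < 64, (pack 64 (rmasks L L 0)).testBit (64 * i + j) =
      decide (i < L.length ∧ j < L.length ∧ j ≠ i ∧ (L.getD j 0 &&& L.getD i 0) ≠ 0) := by
    intro i _ j hj
    rw [pack64 _ hall2 i j hj]
    by_cases hi : i < L.length
    · rw [rmasks_getD L L 0 i hi, rmask_testBit]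
      simp [hi]
    · rw [List.getD_eq_default _ _ (by rw [hlen]; omega)]
      simp [hi]
  obtain ⟨L', hL1, hL2⟩ := go_sound L.length hn check 64 [] goal _ _ _ _ h M hM hcard
    (fun i hi => by
      rw [hD8 i]
      exact ⟨(hcode i hi).1, (hcode i hi).2.1⟩)
    (fun i hi j hj hij => by
      rw [hrow i hi j hj]
      have hji : j ≠ i := fun e => hij e.symm
      by_cases hi' : i < L.length
      · by_cases hj' : j < L.length
        · rw [hp i hi' j hj' hij, Nat.and_comm]
          by_cases h5 : L.getD j 0 &&& L.getD i 0 = 0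
          · rw [if_pos h5, if_neg (by
              rw [decide_eq_true_iff]; rintro ⟨_, _, _, h9⟩; exact h9 h5)]
          · rw [if_neg h5, if_pos (by
              rw [decide_eq_true_iff]; exact ⟨hi', hj', hji, h5⟩)]
        · rw [pr_zero_of_ge (fun B hB => (hM B hB).2) (Or.inr (by omega)), if_neg]
          rw [decide_eq_true_iff]
          rintro ⟨_, h9, _⟩
          exact hj' h9
      · rw [pr_zero_of_ge (fun B hB => (hM B hB).2) (Or.inl (by omega)), if_neg]
        rw [decide_eq_true_iff]
        rintro ⟨h9, _⟩
        exact hi' h9)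
    (fun i hi => by
      rw [hrow i hi i hi]
      simp)
    hW
  refine ⟨L', hL1, ?_⟩
  rw [hL2]
  simp

end DPS
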